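import Pool.Agent.Q210.RC.Basic

open Cardinal Ordinal Set FirstOrder

universe u w

namespace Q210.RC

variable {θ κ : Cardinal.{u}} {x y z : ZFSet.{u}}

/-- the membership symbol -/
def memRel : LSet.Relations 2 := MemSym.mem

/-- atomic membership formula -/
def fmem {α : Type w} {n : ℕ} (s t : LSet.Term (α ⊕ Fin n)) : LSet.BoundedFormula α n :=
  Language.Relations.boundedFormula₂ memRel s t

@[simp] lemma realize_fmem {α : Type w} {n : ℕ} {S : Set ZFSet.{u}} (s t : LSet.Term (α ⊕ Fin n))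
    (v : α → S) (xs : Fin n → S) :
    (fmem s t).Realize v xs ↔ ((s.realize (Sum.elim v xs) : S) : ZFSet.{u}) ∈
      ((t.realize (Sum.elim v xs) : S) : ZFSet.{u}) := by
  unfold fmem
  rw [Language.BoundedFormula.realize_rel₂]
  rfl

/-- the formula `p ∈ F ∧ p = (a, y)` with `F, a` free and `y, p` bound. -/
def chi : LSet.BoundedFormula (Fin 2) 2 :=
  fmem (Language.Term.var (Sum.inr 1)) (Language.Term.var (Sum.inl 0)) ⊓
  (Language.BoundedFormula.all
    ((fmem (Language.Term.var (Sum.inr 2)) (Language.Term.var (Sum.inr 1))).iff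
      ((Language.BoundedFormula.all
        ((fmem (Language.Term.var (Sum.inr 3)) (Language.Term.var (Sum.inr 2))).iff
          (Language.Term.bdEqual (Language.Term.var (Sum.inr 3)) (Language.Term.var (Sum.inl 1))))) ⊔
      (Language.BoundedFormula.all
        ((fmem (Language.Term.var (Sum.inr 3)) (Language.Term.var (Sum.inr 2))).iff
          (Language.Term.bdEqual (Language.Term.var (Sum.inr 3)) (Language.Term.var (Sum.inl 1)) ⊔
           Language.Term.bdEqual (Language.Term.var (Sum.inr 3)) (Language.Term.var (Sum.inr 0))))))))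

lemma realize_chi {S : Set ZFSet.{u}} (v : Fin 2 → S) (xs : Fin 2 → S) :
    chi.Realize v xs ↔ ((xs 1).1 ∈ (v 0).1 ∧ ∀ c : S, (c.1 ∈ (xs 1).1 ↔
      ((∀ z : S, z.1 ∈ c.1 ↔ z = v 1) ∨ (∀ z : S, z.1 ∈ c.1 ↔ (z = v 1 ∨ z = xs 0))))) := by
  unfold chi
  simp only [Language.BoundedFormula.realize_inf, realize_fmem, Language.Term.realize_var,
    Sum.elim_inr, Sum.elim_inl, Language.BoundedFormula.realize_all,
    Language.BoundedFormula.realize_iff, Language.BoundedFormula.realize_sup,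
    Language.BoundedFormula.realize_bdEqual, Nat.reduceAdd]
  rfl

/-- the truth of `chi` in `H(θ)`. -/
lemma chi_H (hθ : θ.IsRegular) (F a y p : H θ) :
    (p.1 ∈ F.1 ∧ ∀ c : H θ, (c.1 ∈ p.1 ↔
      ((∀ z : H θ, z.1 ∈ c.1 ↔ z = a) ∨ (∀ z : H θ, z.1 ∈ c.1 ↔ (z = a ∨ z = y))))) ↔
    (p.1 ∈ F.1 ∧ p.1 = ZFSet.pair a.1 y.1) := by
  have h1 : ∀ c : H θ, (∀ z : H θ, z.1 ∈ c.1 ↔ z = a) ↔ c.1 = {a.1} := by
    intro c
    constructor
    · intro h
      ext z
      rw [ZFSet.mem_singleton]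
      constructor
      · intro hz
        exact congrArg Subtype.val ((h ⟨z, H_trans c.2 hz⟩).1 hz)
      · rintro rfl
        exact (h a).2 rfl
    · intro h z
      rw [h, ZFSet.mem_singleton]
      exact ⟨fun h => Subtype.ext h, fun h => congrArg _ h⟩
  have h2 : ∀ c : H θ, (∀ z : H θ, z.1 ∈ c.1 ↔ (z = a ∨ z = y)) ↔ c.1 = {a.1, y.1} := by
    intro c
    constructor
    · intro h
      ext z
      rw [ZFSet.mem_pair]
      constructor
      · intro hz
        rcases (h ⟨z, H_trans c.2 hz⟩).1 hz with h | h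
        · exact Or.inl (congrArg Subtype.val h)
        · exact Or.inr (congrArg Subtype.val h)
      · rintro (rfl | rfl)
        · exact (h a).2 (Or.inl rfl)
        · exact (h y).2 (Or.inr rfl)
    · intro h z
      rw [h, ZFSet.mem_pair]
      exact ⟨fun h => h.imp Subtype.ext Subtype.ext,
        fun h => h.imp (congrArg _) (congrArg _)⟩
  simp only [h1, h2]
  refine and_congr_right fun _ => ?_
  constructor
  · intro h
    ext c
    unfold ZFSet.pair
    rw [ZFSet.mem_pair]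
    constructor
    · intro hc
      exact (h ⟨c, H_trans p.2 hc⟩).1 hc
    · intro hc
      have hcH : c ∈ H θ := by
        rcases hc with rfl | rfl
        · exact singleton_mem_H hθ a.2
        · exact pairset_mem_H hθ a.2 y.2
      exact (h ⟨c, hcH⟩).2 hc
  · intro h c
    rw [h]
    unfold ZFSet.pair
    rw [ZFSet.mem_pair]

/-- Closure of elementary submodels under application of functions. -/
lemma elem_app (hθ : θ.IsRegular) {M : Set ZFSet.{u}} (hM : ElemSub M (H θ)) {F a y : ZFSet.{u}}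
    (hF : F ∈ M) (ha : a ∈ M) (hy : ZFSet.pair a y ∈ F)
    (huniq : ∀ y', ZFSet.pair a y' ∈ F → y' = y) : y ∈ M := by
  obtain ⟨e, he⟩ := hM
  have hFH : F ∈ H θ := by
    have h := (e ⟨F, hF⟩).2
    rwa [he ⟨F, hF⟩] at h
  have haH : a ∈ H θ := by
    have h := (e ⟨a, ha⟩).2
    rwa [he ⟨a, ha⟩] at h
  have hpH : ZFSet.pair a y ∈ H θ := H_trans hFH hy
  have hyH : y ∈ H θ := pair_mem_H_right hpH
  have key := e.map_boundedFormula (chi.ex.ex)
    (v := ![⟨F, hF⟩, ⟨a, ha⟩]) (xs := default)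
  have hH : (chi.ex.ex).Realize (e ∘ ![⟨F, hF⟩, ⟨a, ha⟩]) (e ∘ (default : Fin 0 → M)) := by
    rw [Language.BoundedFormula.realize_ex]
    refine ⟨⟨y, hyH⟩, ?_⟩
    rw [Language.BoundedFormula.realize_ex]
    refine ⟨⟨ZFSet.pair a y, hpH⟩, ?_⟩
    rw [realize_chi]
    have h0 : (e ∘ ![⟨F, hF⟩, ⟨a, ha⟩]) 0 = (⟨F, hFH⟩ : H θ) := Subtype.ext (he _)
    have h1 : (e ∘ ![⟨F, hF⟩, ⟨a, ha⟩]) 1 = (⟨a, haH⟩ : H θ) := Subtype.ext (he _)
    rw [h0, h1]
    exact (chi_H hθ ⟨F, hFH⟩ ⟨a, haH⟩ ⟨y, hyH⟩ ⟨ZFSet.pair a y, hpH⟩).2 ⟨hy, rfl⟩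
  have hMM := key.1 hH
  rw [Language.BoundedFormula.realize_ex] at hMM
  obtain ⟨y', hMM⟩ := hMM
  rw [Language.BoundedFormula.realize_ex] at hMM
  obtain ⟨p', hMM⟩ := hMM
  have key2 := (e.map_boundedFormula chi ![⟨F, hF⟩, ⟨a, ha⟩]
    (Fin.snoc (Fin.snoc (default : Fin 0 → M) y') p')).2 hMM
  rw [realize_chi] at key2
  have h0 : (e ∘ ![⟨F, hF⟩, ⟨a, ha⟩]) 0 = (⟨F, hFH⟩ : H θ) := Subtype.ext (he _)
  have h1 : (e ∘ ![⟨F, hF⟩, ⟨a, ha⟩]) 1 = (⟨a, haH⟩ : H θ) := Subtype.ext (he _)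
  have h2 : (e ∘ (Fin.snoc (Fin.snoc (default : Fin 0 → M) y') p' : Fin 2 → M)) 0 = e y' := rfl
  have h3 : (e ∘ (Fin.snoc (Fin.snoc (default : Fin 0 → M) y') p' : Fin 2 → M)) 1 = e p' := rfl
  rw [h0, h1, h2, h3] at key2
  obtain ⟨hp1, hp2⟩ := (chi_H hθ ⟨F, hFH⟩ ⟨a, haH⟩ (e y') (e p')).1 key2
  rw [hp2] at hp1
  have h4 := huniq _ hp1
  rw [he y'] at h4
  rw [← h4]
  exact y'.2

end Q210.RC
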