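import Pool.Agent.Q210.RC.Defs

open Cardinal Ordinal Set FirstOrder

universe u

namespace Q210.RC

variable {θ κ : Cardinal.{u}} {x y z : ZFSet.{u}}

lemma H_subset (hy : y ∈ H θ) (h : x ⊆ y) : x ∈ H θ := by
  obtain ⟨t, ht, hyt, hc⟩ := hy
  exact ⟨t, ht, fun _ hz => hyt (h hz), hc⟩

lemma H_trans (hy : y ∈ H θ) (h : x ∈ y) : x ∈ H θ := by
  obtain ⟨t, ht, hyt, hc⟩ := hy
  exact ⟨t, ht, ht x (hyt h), hc⟩

lemma range_mem_H (hθ : θ.IsRegular) {ι : Type u} (hι : #ι < θ) (f : ι → ZFSet.{u})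
    (hf : ∀ i, f i ∈ H θ) : ZFSet.range f ∈ H θ := by
  choose t ht hft hc using hf
  refine ⟨ZFSet.iUnion t ∪ ZFSet.range f, ?_, ?_, ?_⟩
  · intro y hy z hz
    rw [ZFSet.mem_union] at hy ⊢
    left
    rcases hy with hy | hy
    · rw [ZFSet.mem_iUnion] at hy ⊢
      obtain ⟨i, hi⟩ := hy
      exact ⟨i, ht i y hi hz⟩
    · rw [ZFSet.mem_range] at hy
      obtain ⟨i, rfl⟩ := hy
      rw [ZFSet.mem_iUnion]
      exact ⟨i, hft i hz⟩
  · intro y hy
    rw [ZFSet.mem_union]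
    right
    exact hy
  · refine lt_of_le_of_lt ZFSet.card_union_le ?_
    refine Cardinal.add_lt_of_lt hθ.aleph0_le ?_ ?_
    · have h1 := ZFSet.lift_card_iUnion_le_sum_card (f := t)
      rw [Cardinal.lift_id] at h1
      refine lt_of_le_of_lt h1 ?_
      refine Cardinal.sum_lt_of_isRegular hθ hι hc
    · have h1 := ZFSet.lift_card_range_le (f := f)
      rw [Cardinal.lift_id, Cardinal.lift_id] at h1
      exact lt_of_le_of_lt h1 hι

lemma pairset_mem_H (hθ : θ.IsRegular) (hx : x ∈ H θ) (hy : y ∈ H θ) :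
    ({x, y} : ZFSet.{u}) ∈ H θ := by
  have h : ({x, y} : ZFSet.{u}) = ZFSet.range (fun b : ULift.{u} Bool => if b.down then x else y) := by
    ext z
    rw [ZFSet.mem_pair, ZFSet.mem_range]
    constructor
    · rintro (rfl | rfl)
      · exact ⟨⟨true⟩, rfl⟩
      · exact ⟨⟨false⟩, rfl⟩
    · rintro ⟨⟨b⟩, rfl⟩
      cases b <;> simp
  rw [h]
  refine range_mem_H hθ ?_ _ ?_
  · rw [Cardinal.mk_uLift]
    simpa using (Cardinal.natCast_lt_aleph0 (n := 2)).trans_le hθ.aleph0_le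
  · rintro ⟨b⟩
    cases b <;> simpa

lemma singleton_mem_H (hθ : θ.IsRegular) (hx : x ∈ H θ) : ({x} : ZFSet.{u}) ∈ H θ := by
  have := pairset_mem_H hθ hx hx
  simpa using this

lemma pair_mem_H (hθ : θ.IsRegular) (hx : x ∈ H θ) (hy : y ∈ H θ) :
    ZFSet.pair x y ∈ H θ := by
  unfold ZFSet.pair
  exact pairset_mem_H hθ (singleton_mem_H hθ hx) (pairset_mem_H hθ hx hy)

lemma pair_mem_H_left (h : ZFSet.pair x y ∈ H θ) : x ∈ H θ :=
  H_trans (H_trans h (y := ZFSet.pair x y) (x := {x, y}) (by simp [ZFSet.pair])) (by simp)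

lemma pair_mem_H_right (h : ZFSet.pair x y ∈ H θ) : y ∈ H θ :=
  H_trans (H_trans h (y := ZFSet.pair x y) (x := {x, y}) (by simp [ZFSet.pair])) (by simp)

lemma transitive_toZFSet (α : Ordinal.{u}) : α.toZFSet.IsTransitive :=
  (ZFSet.isOrdinal_toZFSet α).isTransitive

lemma ord_mem_H {α : Ordinal.{u}} (h : α.card < θ) : α.toZFSet ∈ H θ :=
  ⟨α.toZFSet, transitive_toZFSet α, fun _ h => h, by rwa [card_toZFSet]⟩

lemma cz_mem_H (h : κ < θ) : cz κ ∈ H θ := ord_mem_H (by rwa [card_ord])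

lemma exists_theta (κ : Cardinal.{u}) (x : ZFSet.{u}) :
    ∃ θ : Cardinal.{u}, θ.IsRegular ∧ κ < θ ∧ ℵ₀ < θ ∧ x ∈ H θ := by
  refine ⟨Order.succ (max ℵ₀ (max κ (ZFSet.vonNeumann (x.rank)).card)), ?_, ?_, ?_, ?_⟩
  · exact Cardinal.isRegular_succ (le_max_left _ _)
  · exact Order.lt_succ_of_le (le_trans (le_max_left _ _) (le_max_right _ _))
  · exact Order.lt_succ_of_le (le_max_left _ _)
  · refine ⟨ZFSet.vonNeumann x.rank, ZFSet.isTransitive_vonNeumann _,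
      ZFSet.subset_vonNeumann_self x, ?_⟩
    exact Order.lt_succ_of_le (le_trans (le_max_right _ _) (le_max_right _ _))

/-- In a transitive set every ordinal below the rank is the rank of an element. -/
lemma exists_rank_eq {t : ZFSet.{u}} (ht : t.IsTransitive) {α : Ordinal.{u}} (hα : α < t.rank) :
    ∃ y ∈ t, y.rank = α := by
  obtain ⟨y0, hy0, h0⟩ := ZFSet.lt_rank_iff.1 hα
  have key : ∀ y : ZFSet.{u}, y ∈ t → α ≤ y.rank → ∃ z ∈ t, z.rank = α := by
    intro y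
    induction y using ZFSet.inductionOn with
    | _ y ih =>
      intro hy h
      rcases eq_or_lt_of_le h with h | h
      · exact ⟨y, hy, h.symm⟩
      · obtain ⟨z, hz, hz2⟩ := ZFSet.lt_rank_iff.1 h
        exact ih z hz (ht y hy hz) hz2
  exact key y0 hy0 h0

lemma H_subset_vonNeumann : H θ ⊆ {x : ZFSet.{u} | x ∈ ZFSet.vonNeumann θ.ord} := by
  rintro x ⟨t, ht, hxt, hc⟩
  change x ∈ ZFSet.vonNeumann θ.ord
  rw [ZFSet.mem_vonNeumann]
  refine lt_of_le_of_lt (ZFSet.rank_mono hxt) ?_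
  rw [Cardinal.lt_ord]
  refine lt_of_le_of_lt ?_ hc
  rw [← Cardinal.lift_le.{u + 1}, ← ZFSet.cardinalMk_coe_sort, ← Cardinal.mk_Iio_ordinal]
  have : ∀ a : Set.Iio t.rank, ∃ y ∈ t, y.rank = a.1 := fun a => exists_rank_eq ht a.2
  choose f hf hf2 using this
  refine Cardinal.mk_le_of_injective (f := fun a => (⟨f a, hf a⟩ : t)) ?_
  intro a b hab
  have h : f a = f b := congrArg Subtype.val hab
  apply Subtype.ext
  rw [← hf2 a, ← hf2 b, h]

end Q210.RC
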