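import Pool.Agent.Q210.RC.MSide

open Cardinal Ordinal Set FirstOrder

universe u

namespace Q210.RC

variable {κ : Cardinal.{u}}

lemma mk_Iic_lt (hκ0 : ℵ₀ ≤ κ) (a : κ.ord.ToType) : #(Set.Iic a) < κ := by
  rw [← Set.Iio_insert]
  refine lt_of_le_of_lt Cardinal.mk_insert_le ?_
  exact Cardinal.add_lt_of_lt hκ0 (Cardinal.mk_Iio_toType_ord_lt a)
    (lt_of_lt_of_le one_lt_aleph0 hκ0)

lemma exists_gt (hκ0 : ℵ₀ ≤ κ) (a : κ.ord.ToType) : ∃ b, a < b := by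
  by_contra hcon
  push Not at hcon
  have h1 := mk_Iic_lt hκ0 a
  have h2 : Set.Iic a = Set.univ := by
    ext x
    simp [hcon x]
  rw [h2, Cardinal.mk_univ, Cardinal.mk_toType, Cardinal.card_ord] at h1
  exact lt_irrefl _ h1

/-- the closure points of a function form a club. -/
lemma isClub_closure (hκ : κ.IsRegular) (hκ0 : ℵ₀ < κ) (f : κ.ord.ToType → κ.ord.ToType)
    (a₀ : κ.ord.ToType) : IsClub {γ : κ.ord.ToType | a₀ < γ ∧ ∀ ρ < γ, f ρ < γ} := by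
  constructor
  · intro d hd hne _ a ha
    refine ⟨?_, ?_⟩
    · obtain ⟨x, hx⟩ := hne
      exact (hd hx).1.trans_le (ha.1 hx)
    · intro ρ hρ
      obtain ⟨x, hx, hx2⟩ : ∃ x ∈ d, ρ < x := by
        by_contra hcon
        push Not at hcon
        exact absurd (ha.2 hcon) (not_le.2 hρ)
      exact ((hd hx).2 ρ hx2).trans_le (ha.1 hx)
  · intro a
    have hstep : ∀ a : κ.ord.ToType, ∃ b, a < b ∧ ∀ ρ ≤ a, f ρ < b := by
      intro a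
      obtain ⟨b, hb⟩ := exists_gt_of_small hκ (s := insert a (f '' Set.Iic a)) (by
        refine lt_of_le_of_lt Cardinal.mk_insert_le ?_
        exact Cardinal.add_lt_of_lt hκ0.le (lt_of_le_of_lt mk_image_le (mk_Iic_lt hκ0.le a))
          (one_lt_aleph0.trans hκ0))
      exact ⟨b, hb a (Set.mem_insert _ _), fun ρ hρ =>
        hb _ (Set.mem_insert_of_mem _ ⟨ρ, hρ, rfl⟩)⟩
    choose g hg1 hg2 using hstep
    let s : ℕ → κ.ord.ToType := fun n => Nat.rec (max a a₀) (fun _ x => g x) n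
    have hs1 : ∀ n, s (n + 1) = g (s n) := fun n => rfl
    obtain ⟨b, hb⟩ := exists_gt_seq hκ hκ0 s
    obtain ⟨γ, hγ1, hγ2⟩ := WellFounded.has_min (wellFounded_lt (α := κ.ord.ToType))
      {x | ∀ n, s n < x} ⟨b, hb⟩
    refine ⟨γ, ⟨?_, ?_⟩, ?_⟩
    · exact lt_of_le_of_lt (le_max_right a a₀) (hγ1 0)
    · intro ρ hρ
      have : ¬ ∀ n, s n < ρ := fun h => hγ2 ρ h hρ
      push Not at this
      obtain ⟨n, hn⟩ := this
      refine (hg2 (s n) ρ hn).trans ?_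
      rw [← hs1]
      exact hγ1 (n + 1)
    · exact ((le_max_left a a₀).trans_lt (hγ1 0)).le

lemma cof_ne (hκ : κ.IsRegular) (hκ0 : ℵ₀ < κ) : Order.cof κ.ord.ToType ≠ ℵ₀ := by
  rw [Ordinal.cof_toType, hκ.cof_ord]
  exact hκ0.ne'

/-- stationary sets have elements in every club that are limits of the stationary set. -/
lemma exists_limit (hκ : κ.IsRegular) (hκ0 : ℵ₀ < κ) {D t : Set κ.ord.ToType}
    (hD : IsStationary D) (ht : IsClub t) (a₀ : κ.ord.ToType) :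
    ∃ γ ∈ D, γ ∈ t ∧ a₀ < γ ∧ ∀ ρ < γ, ∃ ξ ∈ D, ρ < ξ ∧ ξ < γ := by
  have hunb : ∀ ρ : κ.ord.ToType, ∃ ξ ∈ D, ρ < ξ := by
    intro ρ
    obtain ⟨ξ, hξ, h1, _⟩ := hD (isClub_closure hκ hκ0 id ρ)
    exact ⟨ξ, hξ, h1⟩
  choose f hf1 hf2 using hunb
  obtain ⟨γ, hγ, hγt, hγ2, hγ3⟩ := hD (ht.inter (cof_ne hκ hκ0) (isClub_closure hκ hκ0 f a₀))
  exact ⟨γ, hγ, hγt, hγ2, fun ρ hρ => ⟨f ρ, hf1 ρ, hf2 ρ, hγ3 ρ hρ⟩⟩

lemma stationary_unbounded (hκ : κ.IsRegular) (hκ0 : ℵ₀ < κ) {D : Set κ.ord.ToType}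
    (hD : IsStationary D) (ρ : κ.ord.ToType) : ∃ ξ ∈ D, ρ < ξ := by
  obtain ⟨ξ, hξ, h1, _⟩ := hD (isClub_closure hκ hκ0 id ρ)
  exact ⟨ξ, hξ, h1⟩

lemma mk_Iio_ot {o : Ordinal.{u}} (m : o.ToType) : #(Set.Iio m) = (ot m).card := by
  have h0 := Cardinal.mk_Iio_ordinal (ot m)
  have h2 : Cardinal.lift.{u + 1} #(Set.Iio m) = #(Set.Iio (ot m)) := by
    rw [← Cardinal.lift_id'.{u, u + 1} #(Set.Iio (ot m))]
    refine Cardinal.lift_mk_eq'.2 ⟨Equiv.ofBijective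
      (fun x => ⟨ot x.1, ot_lt_ot.2 x.2⟩) ⟨?_, ?_⟩⟩
    · intro x y h
      have h' := Subtype.ext_iff.1 h
      exact Subtype.ext (ot_inj.1 h')
    · rintro ⟨y, hy⟩
      obtain ⟨k, hk⟩ := exists_ot (o := o) (lt_trans hy (ot_lt m))
      refine ⟨⟨k, ?_⟩, Subtype.ext hk⟩
      exact ot_lt_ot.1 (by rw [hk]; exact hy)
  rw [h0] at h2
  exact Cardinal.lift_injective h2

/-- `Δ`-Ramsey cardinals are strong limits. -/
lemma two_power_lt (hR : Ramsey Delta κ) {μ : Cardinal.{u}} (hμ : μ < κ) : 2 ^ μ < κ := by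
  classical
  obtain ⟨hκ0, hκ, _⟩ := id hR
  by_contra hcon
  rw [not_lt] at hcon
  obtain ⟨m₀, hm₀⟩ := exists_ot (o := κ.ord) (Cardinal.ord_lt_ord.2 hμ)
  have hm1 : #(Set.Iio m₀) = μ := by
    rw [mk_Iio_ot, hm₀, Cardinal.card_ord]
  have hle : #(κ.ord.ToType) ≤ #(Set (Set.Iio m₀)) := by
    rw [Cardinal.mk_set, hm1, Cardinal.mk_toType, Cardinal.card_ord]
    exact hcon
  obtain ⟨F⟩ := hle
  obtain ⟨D, s, e, b, c, β, hD, -, -, hmain⟩ := mside hR (St := PUnit) PUnit.unit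
    (fun _ _ => ∅) (fun _ _ => ∅) (fun _ _ => PUnit.unit)
    (fun _ i => {γ | ∃ h : i < m₀, (⟨i, h⟩ : Set.Iio m₀) ∈ F γ})
  obtain ⟨ξ, hξ, hξ1⟩ := stationary_unbounded hκ hκ0 hD (max β m₀)
  obtain ⟨ξ', hξ', hξ'1⟩ := stationary_unbounded hκ hκ0 hD ξ
  have key : ∀ ζ ∈ D, max β m₀ < ζ → F ζ = {i | i.1 ∈ c 0} := by
    intro ζ hζ hζ1
    ext i
    have h := (hmain ζ hζ ((le_max_left _ _).trans_lt hζ1) 0 i.1
      (lt_trans i.2 ((le_max_right _ _).trans_lt hζ1))).2.2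
    constructor
    · intro hi
      exact h.1 ⟨i.2, hi⟩
    · intro hi
      obtain ⟨_, h2⟩ := h.2 hi
      exact h2
  have h1 : F ξ = F ξ' := by
    rw [key ξ hξ hξ1, key ξ' hξ' (hξ1.trans hξ'1)]
  exact absurd (F.injective h1) hξ'1.ne

lemma inaccessible (hR : Ramsey Delta κ) : κ.IsInaccessible :=
  ⟨hR.1, hR.2.1.2, fun _ h => two_power_lt hR h⟩

end Q210.RC
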