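import Pool.Agent.Q210.RC.Basic

open Cardinal Ordinal Set FirstOrder

universe u

namespace Q210.RC

section
variable {o : Ordinal.{u}}

lemma ot_lt (k : o.ToType) : ot k < o := (ToType.mk.symm k).2

lemma ot_strictMono : StrictMono (ot : o.ToType → Ordinal.{u}) := by
  intro a b h
  exact (OrderIso.strictMono (ToType.mk.symm : o.ToType ≃o Set.Iio o)) h

lemma ot_lt_ot {a b : o.ToType} : ot a < ot b ↔ a < b := ot_strictMono.lt_iff_lt

lemma ot_le_ot {a b : o.ToType} : ot a ≤ ot b ↔ a ≤ b := ot_strictMono.le_iff_le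

lemma ot_inj {a b : o.ToType} : ot a = ot b ↔ a = b := ot_strictMono.injective.eq_iff

lemma exists_ot {α : Ordinal.{u}} (h : α < o) : ∃ k : o.ToType, ot k = α :=
  ⟨ToType.mk ⟨α, h⟩, by unfold ot; rw [OrderIso.symm_apply_apply]⟩

/-- the set of ordinals coded by a subset of `o.ToType` -/
noncomputable def setZ (A : Set o.ToType) : ZFSet.{u} :=
  ZFSet.range (fun k : A => (ot k.1).toZFSet)

lemma mem_setZ {A : Set o.ToType} {z : ZFSet.{u}} :
    z ∈ setZ A ↔ ∃ k ∈ A, (ot k).toZFSet = z := by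
  unfold setZ
  rw [ZFSet.mem_range]
  constructor
  · rintro ⟨k, rfl⟩
    exact ⟨k.1, k.2, rfl⟩
  · rintro ⟨k, hk, rfl⟩
    exact ⟨⟨k, hk⟩, rfl⟩

lemma ot_mem_setZ {A : Set o.ToType} {k : o.ToType} : (ot k).toZFSet ∈ setZ A ↔ k ∈ A := by
  rw [mem_setZ]
  constructor
  · rintro ⟨k', hk', h⟩
    rwa [← ot_inj.1 (toZFSet_injective h)]
  · intro h
    exact ⟨k, h, rfl⟩

lemma mem_oz {z : ZFSet.{u}} : z ∈ o.toZFSet ↔ ∃ k : o.ToType, (ot k).toZFSet = z := by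
  rw [mem_toZFSet_iff]
  constructor
  · rintro ⟨a, ha, rfl⟩
    obtain ⟨k, hk⟩ := exists_ot ha
    exact ⟨k, by rw [hk]⟩
  · rintro ⟨k, rfl⟩
    exact ⟨_, ot_lt k, rfl⟩

lemma ot_mem_oz (k : o.ToType) : (ot k).toZFSet ∈ o.toZFSet := mem_oz.2 ⟨k, rfl⟩

lemma setZ_sub (A : Set o.ToType) : setZ A ⊆ o.toZFSet := by
  intro z hz
  obtain ⟨k, _, rfl⟩ := mem_setZ.1 hz
  exact ot_mem_oz k

lemma setZ_injective : Function.Injective (setZ : Set o.ToType → ZFSet.{u}) := by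
  intro A B h
  ext k
  rw [← ot_mem_setZ, h, ot_mem_setZ]

/-- decoding -/
def unZ (X : ZFSet.{u}) : Set o.ToType := {k | (ot k).toZFSet ∈ X}

lemma setZ_unZ {X : ZFSet.{u}} (hX : X ⊆ o.toZFSet) : setZ (unZ X : Set o.ToType) = X := by
  ext z
  rw [mem_setZ]
  constructor
  · rintro ⟨k, hk, rfl⟩
    exact hk
  · intro hz
    obtain ⟨k, rfl⟩ := mem_oz.1 (hX hz)
    exact ⟨k, hz, rfl⟩

lemma diff_setZ (A : Set o.ToType) : o.toZFSet \ setZ A = setZ Aᶜ := by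
  ext z
  rw [ZFSet.mem_sdiff]
  constructor
  · rintro ⟨h1, h2⟩
    obtain ⟨k, rfl⟩ := mem_oz.1 h1
    rw [ot_mem_setZ] at h2 ⊢
    exact h2
  · intro h
    obtain ⟨k, hk, rfl⟩ := mem_setZ.1 h
    exact ⟨ot_mem_oz k, fun h' => hk (ot_mem_setZ.1 h')⟩

/-- code of a sequence of subsets of `o.ToType` -/
noncomputable def seqZ (G : o.ToType → Set o.ToType) : ZFSet.{u} :=
  ZFSet.range (fun k : o.ToType => ZFSet.pair (ot k).toZFSet (setZ (G k)))

lemma pair_mem_seqZ {G : o.ToType → Set o.ToType} {a b : ZFSet.{u}} :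
    ZFSet.pair a b ∈ seqZ G ↔ ∃ k, (ot k).toZFSet = a ∧ setZ (G k) = b := by
  unfold seqZ
  rw [ZFSet.mem_range]
  simp only [ZFSet.pair_inj]

end

/-- the graph of a function, through codes. -/
noncomputable def graph {T T' : Type u} (c : T → ZFSet.{u}) (c' : T' → ZFSet.{u}) (f : T → T') :
    ZFSet.{u} := ZFSet.range (fun t : T => ZFSet.pair (c t) (c' (f t)))

lemma pair_mem_graph {T T' : Type u} {c : T → ZFSet.{u}} {c' : T' → ZFSet.{u}} {f : T → T'}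
    {a b : ZFSet.{u}} : ZFSet.pair a b ∈ graph c c' f ↔ ∃ t, c t = a ∧ c' (f t) = b := by
  unfold graph
  rw [ZFSet.mem_range]
  simp only [ZFSet.pair_inj]

/-- an injective code of a type -/
noncomputable def wo (T : Type u) (t : T) : ZFSet.{u} :=
  (Ordinal.typein (WellOrderingRel (α := T)) t).toZFSet

lemma wo_injective (T : Type u) : Function.Injective (wo T) := by
  intro a b h
  exact Ordinal.typein_injective _ (toZFSet_injective h)

section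
variable {κ : Cardinal.{u}}

lemma seqZ_isSeq (G : κ.ord.ToType → Set κ.ord.ToType) : IsSeq κ (seqZ G) := by
  refine ⟨?_, ?_⟩
  · intro z hz
    unfold seqZ at hz
    obtain ⟨k, rfl⟩ := ZFSet.mem_range.1 hz
    rw [ZFSet.pair_mem_prod]
    exact ⟨ot_mem_oz k, ZFSet.mem_powerset.2 (setZ_sub _)⟩
  · intro z hz
    obtain ⟨k, rfl⟩ := mem_oz.1 hz
    refine ⟨setZ (G k), pair_mem_seqZ.2 ⟨k, rfl, rfl⟩, ?_⟩
    intro w hw
    obtain ⟨k', hk', h⟩ := pair_mem_seqZ.1 hw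
    rw [← h, ot_inj.1 (toZFSet_injective hk')]

lemma diag_seqZ (G : κ.ord.ToType → Set κ.ord.ToType) :
    diag κ (seqZ G) = setZ {k | ∀ i < k, k ∈ G i} := by
  ext z
  unfold diag
  rw [ZFSet.mem_sep]
  constructor
  · rintro ⟨hz, h⟩
    obtain ⟨k, rfl⟩ := mem_oz.1 hz
    rw [ot_mem_setZ]
    intro i hi
    have := h (ot i).toZFSet (toZFSet_mem_toZFSet_iff.2 (ot_lt_ot.2 hi)) (setZ (G i))
      (pair_mem_seqZ.2 ⟨i, rfl, rfl⟩)
    exact ot_mem_setZ.1 this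
  · intro hz
    obtain ⟨k, hk, rfl⟩ := mem_setZ.1 hz
    refine ⟨ot_mem_oz k, ?_⟩
    intro α hα A hA
    obtain ⟨i, rfl, rfl⟩ := pair_mem_seqZ.1 hA
    rw [ot_mem_setZ]
    exact hk i (ot_lt_ot.1 (toZFSet_mem_toZFSet_iff.1 hα))

lemma amen_seqZ (G : κ.ord.ToType → Set κ.ord.ToType) (U : Set ZFSet.{u}) :
    ZFSet.sep (fun α => ∃ A ∈ U, ZFSet.pair α A ∈ seqZ G) (cz κ) = setZ {i | setZ (G i) ∈ U} := by
  ext z
  rw [ZFSet.mem_sep]
  constructor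
  · rintro ⟨hz, A, hA, h⟩
    obtain ⟨k, rfl, rfl⟩ := pair_mem_seqZ.1 h
    exact ot_mem_setZ.2 hA
  · intro hz
    obtain ⟨k, hk, rfl⟩ := mem_setZ.1 hz
    exact ⟨ot_mem_oz k, _, hk, pair_mem_seqZ.2 ⟨k, rfl, rfl⟩⟩

end

end Q210.RC
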