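import Pool.Agent.Q210.RC.Hull

open Cardinal Ordinal Set FirstOrder

universe u w

namespace Q210.RC

/-- A family of relations, one for each `S`, is uniformly first-order definable. -/
def Def {α : Type w} (R : ∀ S : Set ZFSet.{u}, (α → S) → Prop) : Prop :=
  ∃ φ : LSet.Formula α, ∀ (S : Set ZFSet.{u}) (v : α → S), φ.Realize v ↔ R S v

section
variable {α : Type w} {R R' : ∀ S : Set ZFSet.{u}, (α → S) → Prop}

lemma Def.mem (i j : α) : Def.{u, w} (fun _ v => (v i).1 ∈ (v j).1) := by
  refine ⟨fmem (Language.Term.var (Sum.inl i)) (Language.Term.var (Sum.inl j)), fun S v => ?_⟩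
  unfold Language.Formula.Realize
  rw [realize_fmem]
  rfl

lemma Def.eq (i j : α) : Def.{u, w} (fun _ v => v i = v j) := by
  refine ⟨(Language.Term.var i).equal (Language.Term.var j), fun S v => ?_⟩
  rw [Language.Formula.realize_equal]
  rfl

lemma Def.not (h : Def R) : Def (fun S v => ¬ R S v) := by
  obtain ⟨φ, hφ⟩ := h
  refine ⟨φ.not, fun S v => ?_⟩
  rw [Language.Formula.realize_not, hφ]

lemma Def.and (h : Def R) (h' : Def R') : Def (fun S v => R S v ∧ R' S v) := by
  obtain ⟨φ, hφ⟩ := h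
  obtain ⟨φ', hφ'⟩ := h'
  refine ⟨φ ⊓ φ', fun S v => ?_⟩
  change _ ↔ (R S v ∧ R' S v)
  rw [← hφ, ← hφ']
  exact Language.BoundedFormula.realize_inf

lemma Def.or (h : Def R) (h' : Def R') : Def (fun S v => R S v ∨ R' S v) := by
  obtain ⟨φ, hφ⟩ := h
  obtain ⟨φ', hφ'⟩ := h'
  refine ⟨φ ⊔ φ', fun S v => ?_⟩
  change _ ↔ (R S v ∨ R' S v)
  rw [← hφ, ← hφ']
  exact Language.BoundedFormula.realize_sup

lemma Def.imp (h : Def R) (h' : Def R') : Def (fun S v => R S v → R' S v) := by
  obtain ⟨φ, hφ⟩ := h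
  obtain ⟨φ', hφ'⟩ := h'
  refine ⟨φ.imp φ', fun S v => ?_⟩
  change _ ↔ (R S v → R' S v)
  rw [← hφ, ← hφ']
  exact Language.BoundedFormula.realize_imp

lemma Def.iff (h : Def R) (h' : Def R') : Def (fun S v => (R S v ↔ R' S v)) := by
  obtain ⟨φ, hφ⟩ := h
  obtain ⟨φ', hφ'⟩ := h'
  refine ⟨φ.iff φ', fun S v => ?_⟩
  change _ ↔ (R S v ↔ R' S v)
  rw [← hφ, ← hφ']
  exact Language.BoundedFormula.realize_iff

lemma Def.all [DecidableEq α] (k : α) (h : Def R) :
    Def (fun S v => ∀ x : S, R S (Function.update v k x)) := by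
  obtain ⟨φ, hφ⟩ := h
  refine ⟨Language.BoundedFormula.all (Language.BoundedFormula.relabel (n := 1) (k := 0)
    (fun i => if i = k then Sum.inr 0 else Sum.inl i : α → α ⊕ Fin 1) φ), fun S v => ?_⟩
  unfold Language.Formula.Realize
  rw [Language.BoundedFormula.realize_all]
  refine forall_congr' fun x => ?_
  rw [← hφ]
  unfold Language.Formula.Realize
  rw [Language.BoundedFormula.realize_relabel]
  have h1 : (Sum.elim v ((Fin.snoc default x : Fin 1 → S) ∘ Fin.castAdd 0) ∘
      fun i => if i = k then Sum.inr 0 else Sum.inl i) = Function.update v k x := by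
    funext i
    by_cases hi : i = k
    · subst hi
      simp [Fin.snoc]
    · simp [hi]
  rw [h1]
  exact iff_of_eq (congrArg _ (Subsingleton.elim _ _))

lemma Def.ex [DecidableEq α] (k : α) (h : Def R) :
    Def (fun S v => ∃ x : S, R S (Function.update v k x)) := by
  have h1 := (Def.all k h.not).not
  have h2 : (fun (S : Set ZFSet.{u}) (v : α → S) => ∃ x : S, R S (Function.update v k x)) =
      (fun (S : Set ZFSet.{u}) (v : α → S) => ¬ ∀ x : S, ¬ R S (Function.update v k x)) := by
    funext S v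
    exact propext (by push Not; rfl)
  rw [h2]
  exact h1

lemma Def.congr (h : Def R) (hR : ∀ S v, R S v ↔ R' S v) : Def R' := by
  have : R = R' := by
    funext S v
    exact propext (hR S v)
  rwa [this] at h

/-- Transfer of definable relations to elementary substructures. -/
lemma Def.transfer (h : Def R) {M N : Set ZFSet.{u}} (e : M ↪ₑ[LSet] N) (v : α → M) :
    R N (e ∘ v) ↔ R M v := by
  obtain ⟨φ, hφ⟩ := h
  rw [← hφ, ← hφ]
  exact e.map_formula φ v

end

end Q210.RC
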