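import Mathlib

/-!
# Definitions: `Ψ^∀_ω`-Ramsey cardinals

Sets are the elements of Mathlib's model `ZFSet` of ZFC, ordinals and cardinals are Mathlib's, and
the ordinal `α` is identified with the von Neumann ordinal `α.toZFSet`.
-/

open Cardinal Ordinal Set FirstOrder

universe u

namespace Q210.RC

/-- `H(θ)`: the sets contained in a transitive set of size less than `θ`. -/
def H (θ : Cardinal.{u}) : Set ZFSet.{u} :=
  {x | ∃ t : ZFSet.{u}, t.IsTransitive ∧ x ⊆ t ∧ t.card < θ}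

/-- The only symbol of the language of set theory is the binary relation symbol of membership. -/
inductive MemSym : ℕ → Type
  | mem : MemSym 2

/-- The language of set theory. -/
def LSet : FirstOrder.Language.{0, 0} := ⟨fun _ => Empty, MemSym⟩

/-- Every class `S` of sets is a structure `(S, ∈)` for the language of set theory. -/
instance structZF (S : Set ZFSet.{u}) : LSet.Structure S where
  funMap := fun f => nomatch f
  RelMap := fun {_} r => match r with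
    | .mem => fun v => (v 0 : ZFSet.{u}) ∈ (v 1 : ZFSet.{u})

/-- `M ≺ N`: the structure `(M, ∈)` is an elementary substructure of `(N, ∈)`. -/
def ElemSub (M N : Set ZFSet.{u}) : Prop :=
  ∃ e : M ↪ₑ[LSet] N, ∀ x : M, (e x : ZFSet.{u}) = x

/-- `(M, ∈)` is a model of `ZFC⁻`, that is ZFC without the power set axiom, with the collection
scheme and with the axiom of choice. The two schemes are stated for all subsets and all relations
that are first-order definable with parameters over `(M, ∈)`. -/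
structure ZFCMinus (M : Set ZFSet.{u}) : Prop where
  /-- extensionality -/
  ext : ∀ a b : M, (∀ x : M, x.1 ∈ a.1 ↔ x.1 ∈ b.1) → a = b
  /-- foundation -/
  foundation : ∀ a : M, (∃ x : M, x.1 ∈ a.1) →
    ∃ x : M, x.1 ∈ a.1 ∧ ∀ y : M, y.1 ∈ x.1 → y.1 ∉ a.1
  /-- pairing -/
  pairing : ∀ a b : M, ∃ c : M, ∀ x : M, x.1 ∈ c.1 ↔ x = a ∨ x = b
  /-- union -/
  union : ∀ a : M, ∃ c : M, ∀ x : M, x.1 ∈ c.1 ↔ ∃ y : M, x.1 ∈ y.1 ∧ y.1 ∈ a.1
  /-- infinity -/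
  infinity : ∃ w : M, (∃ e : M, e.1 ∈ w.1 ∧ ∀ x : M, x.1 ∉ e.1) ∧
    ∀ x : M, x.1 ∈ w.1 → ∃ s : M, s.1 ∈ w.1 ∧ ∀ z : M, z.1 ∈ s.1 ↔ (z.1 ∈ x.1 ∨ z = x)
  /-- separation scheme -/
  separation : ∀ (a : M) (D : Set M), (Set.univ : Set M).Definable₁ LSet D →
    ∃ b : M, ∀ x : M, x.1 ∈ b.1 ↔ (x.1 ∈ a.1 ∧ x ∈ D)
  /-- collection scheme -/
  collection : ∀ (a : M) (R : M → M → Prop),
    (Set.univ : Set M).Definable₂ LSet {p : M × M | R p.1 p.2} →
    (∀ x : M, x.1 ∈ a.1 → ∃ y : M, R x y) →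
    ∃ b : M, ∀ x : M, x.1 ∈ a.1 → ∃ y : M, y.1 ∈ b.1 ∧ R x y
  /-- choice: every family of nonempty pairwise disjoint sets has a transversal -/
  choice : ∀ a : M, (∀ x : M, x.1 ∈ a.1 → ∃ y : M, y.1 ∈ x.1) →
    (∀ x y : M, x.1 ∈ a.1 → y.1 ∈ a.1 → (∃ z : M, z.1 ∈ x.1 ∧ z.1 ∈ y.1) → x = y) →
    ∃ c : M, ∀ x : M, x.1 ∈ a.1 → ∃! z : M, z.1 ∈ c.1 ∧ z.1 ∈ x.1

/-- The cardinal `κ` as a set, i.e. the von Neumann ordinal `κ`. -/
noncomputable def cz (κ : Cardinal.{u}) : ZFSet.{u} := κ.ord.toZFSet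

/-- `M` is a weak `κ`-model: `|M| = κ`, `κ + 1 ⊆ M` and `M ⊨ ZFC⁻`. -/
structure WeakModel (κ : Cardinal.{u}) (M : Set ZFSet.{u}) : Prop where
  card_eq : #M = Cardinal.lift.{u + 1} κ
  subset : ∀ α : Ordinal.{u}, α ≤ κ.ord → α.toZFSet ∈ M
  zfc : ZFCMinus M

/-- `U` is an `M`-ultrafilter on `κ`: an ultrafilter on the Boolean algebra `P(κ) ∩ M`. -/
structure IsUltra (κ : Cardinal.{u}) (M U : Set ZFSet.{u}) : Prop where
  sub : ∀ A ∈ U, A ∈ M ∧ A ⊆ cz κ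
  univ : cz κ ∈ U
  empty : ∅ ∉ U
  inter : ∀ A ∈ U, ∀ B ∈ U, A ∩ B ∈ U
  up : ∀ A ∈ U, ∀ B ∈ M, A ⊆ B → B ⊆ cz κ → B ∈ U
  ultra : ∀ A ∈ M, A ⊆ cz κ → A ∈ U ∨ cz κ \ A ∈ U

/-- `F` is a sequence `⟨A_α : α < κ⟩` of subsets of `κ`, that is a function from `κ` to the power
set of `κ` (a set of ordered pairs). -/
def IsSeq (κ : Cardinal.{u}) (F : ZFSet.{u}) : Prop :=
  ZFSet.IsFunc (cz κ) (ZFSet.powerset (cz κ)) F

/-- The diagonal intersection `{β < κ : β ∈ A_α for all α < β}` of the sequence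
`F = ⟨A_α : α < κ⟩`. -/
noncomputable def diag (κ : Cardinal.{u}) (F : ZFSet.{u}) : ZFSet.{u} :=
  ZFSet.sep (fun β => ∀ α ∈ β, ∀ A, ZFSet.pair α A ∈ F → β ∈ A) (cz κ)

/-- `U` is uniform: all its elements have size `κ`. -/
def Uniform (κ : Cardinal.{u}) (U : Set ZFSet.{u}) : Prop := ∀ A ∈ U, A.card = κ

/-- `U` is `M`-normal: it contains the diagonal intersection of every sequence of elements
of `U` that belongs to `M`. -/
def MNormal (κ : Cardinal.{u}) (M U : Set ZFSet.{u}) : Prop :=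
  ∀ F ∈ M, IsSeq κ F → (∀ α A, ZFSet.pair α A ∈ F → A ∈ U) → diag κ F ∈ U

/-- `U` is `κ`-amenable: `{α < κ : A_α ∈ U} ∈ M` for every sequence `⟨A_α : α < κ⟩` in `M` of
subsets of `κ`. -/
def Amenable (κ : Cardinal.{u}) (M U : Set ZFSet.{u}) : Prop :=
  ∀ F ∈ M, IsSeq κ F → ZFSet.sep (fun α => ∃ A ∈ U, ZFSet.pair α A ∈ F) (cz κ) ∈ M

/-- The property `cc(M, U)`: `U` is countably complete, i.e. every countable subfamily of `U` has
nonempty intersection. -/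
def CC (_κ : Cardinal.{u}) (_M U : Set ZFSet.{u}) : Prop :=
  ∀ A : ℕ → ZFSet.{u}, (∀ n, A n ∈ U) → ∃ ξ, ∀ n, ξ ∈ A n

/-- The ordinal of an element of `κ`. -/
noncomputable def ot {o : Ordinal.{u}} (k : o.ToType) : Ordinal.{u} := (ToType.mk.symm k).1

/-- The property `Δ(M, U)`: `U` is normal, i.e. for an enumeration `⟨A_α : α < κ⟩` of `U`, the set
`{β < κ : β ∈ A_α for all α < β}` is stationary in `κ`. -/
def Delta (κ : Cardinal.{u}) (_M U : Set ZFSet.{u}) : Prop :=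
  ∃ A : κ.ord.ToType → ZFSet.{u}, Set.range A = U ∧
    IsStationary {β : κ.ord.ToType | ∀ α : κ.ord.ToType, α < β → (ot β).toZFSet ∈ A α}

/-- `κ` is `Ψ^θ_ω`-Ramsey: for every `x ∈ H(θ)` there are a weak `κ`-model `M ≺ H(θ)` with `x ∈ M`
and a uniform, `κ`-amenable, `M`-normal `M`-ultrafilter `U` on `κ` with `Ψ(M, U)`. -/
def RamseyAt (Ψ : Cardinal.{u} → Set ZFSet.{u} → Set ZFSet.{u} → Prop) (κ θ : Cardinal.{u}) :
    Prop :=
  ∀ x ∈ H θ, ∃ M U : Set ZFSet.{u}, WeakModel κ M ∧ ElemSub M (H θ) ∧ x ∈ M ∧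
    IsUltra κ M U ∧ Uniform κ U ∧ Amenable κ M U ∧ MNormal κ M U ∧ Ψ κ M U

/-- The uncountable regular cardinal `κ` is `Ψ^∀_ω`-Ramsey: it is `Ψ^θ_ω`-Ramsey for every regular
cardinal `θ > κ`. -/
def Ramsey (Ψ : Cardinal.{u} → Set ZFSet.{u} → Set ZFSet.{u} → Prop) (κ : Cardinal.{u}) : Prop :=
  ℵ₀ < κ ∧ κ.IsRegular ∧ ∀ θ : Cardinal.{u}, θ.IsRegular → κ < θ → RamseyAt Ψ κ θ

end Q210.RC
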