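import Pool.Agent.Q210.RC.Club

open Cardinal Ordinal Set FirstOrder

universe u

namespace Q210.RC

variable {c θ : Cardinal.{u}}

/-- the constant sequence -/
noncomputable def constO (o : Ordinal.{u}) (X : ZFSet.{u}) : ZFSet.{u} :=
  ZFSet.range (fun k : o.ToType => ZFSet.pair (ot k).toZFSet X)

lemma pair_mem_constO {o : Ordinal.{u}} {X a b : ZFSet.{u}} :
    ZFSet.pair a b ∈ constO o X ↔ a ∈ o.toZFSet ∧ b = X := by
  unfold constO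
  rw [ZFSet.mem_range, mem_oz]
  simp only [ZFSet.pair_inj]
  constructor
  · rintro ⟨k, hk, rfl⟩
    exact ⟨⟨k, hk⟩, rfl⟩
  · rintro ⟨⟨k, hk⟩, rfl⟩
    exact ⟨k, hk, rfl⟩

/-- the relation coded by a sequence -/
def Rel (F : ZFSet.{u}) (α ξ : Ordinal.{u}) : Prop :=
  ∃ A, ZFSet.pair α.toZFSet A ∈ F ∧ ξ.toZFSet ∈ A

theorem gside (hc : c.IsRegular) (hc0 : ℵ₀ < c) (hθ : θ.IsRegular)
    {M : Set ZFSet.{u}} (hM : ElemSub M (H θ))
    (hsub : ∀ α : Ordinal.{u}, α ≤ c.ord → α.toZFSet ∈ M)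
    (hconst : ∀ X ∈ M, X ⊆ cz c → constO c.ord X ∈ M)
    (hdiff : ∀ X ∈ M, cz c \ X ∈ M)
    (hinter : ∀ X ∈ M, ∀ Y ∈ M, X ⊆ cz c → X ∩ Y ∈ M)
    (hdiag : ∀ F ∈ M, diag c F ∈ M)
    (D : Set c.ord.ToType) (hD : ∀ ρ : c.ord.ToType, ∃ ξ ∈ D, ρ < ξ)
    (hstar : ∀ F ∈ M, ∃ B : Set c.ord.ToType, setZ B ∈ M ∧ ∃ ρ : c.ord.ToType,
      ∀ ξ ∈ D, ρ < ξ → ∀ α < ξ, (Rel F (ot α) (ot ξ) ↔ α ∈ B)) :
    ∃ U, IsUltra c M U ∧ Uniform c U ∧ Amenable c M U ∧ MNormal c M U ∧ CC c M U := by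
  classical
  have hne : Nonempty c.ord.ToType := by
    rw [← Cardinal.mk_ne_zero_iff, Cardinal.mk_toType, Cardinal.card_ord]
    exact (aleph0_pos.trans hc0).ne'
  obtain ⟨t0⟩ := hne
  let U : Set ZFSet.{u} := {X | X ∈ M ∧ X ⊆ cz c ∧ ∃ ρ : c.ord.ToType, ∀ ξ ∈ D, ρ < ξ →
    (ot ξ).toZFSet ∈ X}
  -- values of sequences
  have hval : ∀ F ∈ M, IsSeq c F → ∀ α : c.ord.ToType, ∃ A ∈ M, A ⊆ cz c ∧
      ZFSet.pair (ot α).toZFSet A ∈ F ∧ ∀ A', ZFSet.pair (ot α).toZFSet A' ∈ F → A' = A := by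
    intro F hF hseq α
    obtain ⟨A, hA, huniq⟩ := hseq.2 (ot α).toZFSet (ot_mem_oz α)
    refine ⟨A, ?_, ?_, hA, fun A' h => huniq A' h⟩
    · exact elem_app hθ hM hF (hsub _ (ot_lt α).le) hA huniq
    · have := hseq.1 hA
      rw [ZFSet.pair_mem_prod] at this
      exact ZFSet.mem_powerset.1 this.2
  have hrel : ∀ F ∈ M, IsSeq c F → ∀ α : c.ord.ToType, ∀ A,
      ZFSet.pair (ot α).toZFSet A ∈ F → ∀ ξ : Ordinal.{u}, (Rel F (ot α) ξ ↔ ξ.toZFSet ∈ A) := by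
    intro F hF hseq α A hA ξ
    obtain ⟨A0, _, _, h0, huniq⟩ := hval F hF hseq α
    constructor
    · rintro ⟨A', hA', h⟩
      rwa [huniq A hA, ← huniq A' hA']
    · intro h
      exact ⟨A, hA, h⟩
  -- decision for the values of sequences
  have hdecF : ∀ F ∈ M, IsSeq c F → ∃ B : Set c.ord.ToType, setZ B ∈ M ∧ ∃ ρ : c.ord.ToType,
      (∀ ξ ∈ D, ρ < ξ → ∀ α < ξ, (Rel F (ot α) (ot ξ) ↔ α ∈ B)) ∧
      ∀ α A, ZFSet.pair (ot α).toZFSet A ∈ F → (A ∈ U ↔ α ∈ B) := by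
    intro F hF hseq
    obtain ⟨B, hB, ρ, hρ⟩ := hstar F hF
    refine ⟨B, hB, ρ, hρ, ?_⟩
    intro α A hA
    obtain ⟨A0, hA0M, hA0c, _, huniq⟩ := hval F hF hseq α
    have hAA := huniq A hA
    constructor
    · rintro ⟨_, _, ρ', hρ'⟩
      obtain ⟨ξ, hξ, hξ1⟩ := hD (max (max ρ ρ') α)
      have h1 : ρ < ξ := (le_max_left _ _).trans_lt ((le_max_left _ _).trans_lt hξ1)
      have h2 : ρ' < ξ := (le_max_right _ _).trans_lt ((le_max_left _ _).trans_lt hξ1)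
      have h3 : α < ξ := (le_max_right _ _).trans_lt hξ1
      exact (hρ ξ hξ h1 α h3).1 ((hrel F hF hseq α A hA _).2 (hρ' ξ hξ h2))
    · intro hα
      refine ⟨hAA ▸ hA0M, hAA ▸ hA0c, max ρ α, fun ξ hξ hξ1 => ?_⟩
      have h1 : ρ < ξ := (le_max_left _ _).trans_lt hξ1
      have h3 : α < ξ := (le_max_right _ _).trans_lt hξ1
      exact (hrel F hF hseq α A hA _).1 ((hρ ξ hξ h1 α h3).2 hα)
  have hultra : ∀ A ∈ M, A ⊆ cz c → A ∈ U ∨ cz c \ A ∈ U := by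
    intro A hA hAc
    obtain ⟨B, hB, ρ, hρ⟩ := hstar _ (hconst A hA hAc)
    have h0 : ∀ ξ : c.ord.ToType, Rel (constO c.ord A) (ot t0) (ot ξ) ↔ (ot ξ).toZFSet ∈ A := by
      intro ξ
      constructor
      · rintro ⟨A', hA', h⟩
        rw [(pair_mem_constO.1 hA').2] at h
        exact h
      · intro h
        exact ⟨A, pair_mem_constO.2 ⟨ot_mem_oz t0, rfl⟩, h⟩
    by_cases hB0 : t0 ∈ B
    · left
      refine ⟨hA, hAc, max ρ t0, fun ξ hξ hξ1 => ?_⟩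
      exact (h0 ξ).1 ((hρ ξ hξ ((le_max_left _ _).trans_lt hξ1) t0
        ((le_max_right _ _).trans_lt hξ1)).2 hB0)
    · right
      refine ⟨hdiff A hA, fun z hz => (ZFSet.mem_sdiff.1 hz).1, max ρ t0, fun ξ hξ hξ1 => ?_⟩
      rw [ZFSet.mem_sdiff]
      refine ⟨ot_mem_oz ξ, fun h => hB0 ?_⟩
      exact (hρ ξ hξ ((le_max_left _ _).trans_lt hξ1) t0
        ((le_max_right _ _).trans_lt hξ1)).1 ((h0 ξ).2 h)
  refine ⟨U, ?_, ?_, ?_, ?_, ?_⟩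
  · refine ⟨fun A hA => ⟨hA.1, hA.2.1⟩, ?_, ?_, ?_, ?_, hultra⟩
    · exact ⟨hsub _ le_rfl, fun _ h => h, t0, fun ξ _ _ => ot_mem_oz ξ⟩
    · rintro ⟨_, _, ρ, hρ⟩
      obtain ⟨ξ, hξ, h⟩ := hD ρ
      exact ZFSet.notMem_empty _ (hρ ξ hξ h)
    · rintro A ⟨hA1, hA2, ρ, hρ⟩ B ⟨hB1, hB2, ρ', hρ'⟩
      refine ⟨hinter A hA1 B hB1 hA2, fun z hz => hA2 (ZFSet.mem_inter.1 hz).1,
        max ρ ρ', fun ξ hξ hξ1 => ?_⟩
      rw [ZFSet.mem_inter]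
      exact ⟨hρ ξ hξ ((le_max_left _ _).trans_lt hξ1), hρ' ξ hξ ((le_max_right _ _).trans_lt hξ1)⟩
    · rintro A ⟨hA1, hA2, ρ, hρ⟩ B hB hAB hBc
      exact ⟨hB, hBc, ρ, fun ξ hξ h => hAB (hρ ξ hξ h)⟩
  · rintro A ⟨hA1, hA2, ρ, hρ⟩
    apply le_antisymm
    · have := ZFSet.card_mono hA2
      unfold cz at this
      rwa [card_toZFSet, Cardinal.card_ord] at this
    · -- the set of indices is unbounded
      by_contra hlt
      rw [not_le] at hlt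
      let S : Set c.ord.ToType := {ξ | (ot ξ).toZFSet ∈ A}
      have hS : #S < c := by
        refine lt_of_le_of_lt ?_ hlt
        rw [← Cardinal.lift_le.{u + 1}, ← ZFSet.cardinalMk_coe_sort]
        refine Cardinal.mk_le_of_injective (α := ULift.{u+1} S)
          (f := fun k => (⟨(ot k.down.1).toZFSet, k.down.2⟩ : A)) ?_ |>.trans_eq' ?_
        · intro a b h
          have h' := Subtype.ext_iff.1 h
          apply ULift.ext
          apply Subtype.ext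
          exact ot_inj.1 (toZFSet_injective h')
        · simp
      obtain ⟨b, hb⟩ := exists_gt_of_small hc hS
      obtain ⟨ξ, hξ, h⟩ := hD (max ρ b)
      have h1 := hb ξ (hρ ξ hξ ((le_max_left _ _).trans_lt h))
      exact absurd h1 (not_lt.2 ((le_max_right ρ b).trans h.le))
  · intro F hF hseq
    obtain ⟨B, hB, ρ, _, hρ⟩ := hdecF F hF hseq
    have : ZFSet.sep (fun α => ∃ A ∈ U, ZFSet.pair α A ∈ F) (cz c) = setZ B := by
      ext z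
      rw [ZFSet.mem_sep]
      constructor
      · rintro ⟨hz, A, hA, h⟩
        obtain ⟨k, rfl⟩ := mem_oz.1 hz
        exact ot_mem_setZ.2 ((hρ k A h).1 hA)
      · intro hz
        obtain ⟨k, hk, rfl⟩ := mem_setZ.1 hz
        obtain ⟨A, _, _, hA, _⟩ := hval F hF hseq k
        exact ⟨ot_mem_oz k, A, (hρ k A hA).2 hk, hA⟩
    rw [this]
    exact hB
  · intro F hF hseq hall
    obtain ⟨B, hB, ρ, hρ1, hρ⟩ := hdecF F hF hseq
    refine ⟨hdiag F hF, fun z hz => (ZFSet.mem_sep.1 hz).1, ρ, fun ξ hξ hξ1 => ?_⟩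
    unfold diag
    rw [ZFSet.mem_sep]
    refine ⟨ot_mem_oz ξ, ?_⟩
    intro α hα A hA
    have hα' : α ∈ cz c := (transitive_toZFSet _) _ (ot_mem_oz ξ) hα
    obtain ⟨k, rfl⟩ := mem_oz.1 hα'
    have hk : k < ξ := ot_lt_ot.1 (toZFSet_mem_toZFSet_iff.1 hα)
    exact (hrel F hF hseq k A hA _).1 ((hρ1 ξ hξ hξ1 k hk).2 ((hρ k A hA).1 (hall _ A hA)))
  · intro A hA
    choose h1 h2 ρ hρ using hA
    obtain ⟨b, hb⟩ := exists_gt_seq hc hc0 ρ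
    obtain ⟨ξ, hξ, h⟩ := hD b
    exact ⟨(ot ξ).toZFSet, fun n => hρ n ξ hξ ((hb n).trans h)⟩

end Q210.RC
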