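import Pool.Agent.Q210.RC.App

open Cardinal Ordinal Set FirstOrder

universe u

namespace Q210.RC

instance : Countable (Σ n, LSet.Relations n) := by
  have h : ∀ n, Countable (LSet.Relations n) := by
    intro n
    have : Subsingleton (MemSym n) := by
      constructor
      intro a b
      cases a with
      | mem => cases b with
        | mem => rfl
    exact ⟨⟨fun _ => 0, fun a b _ => Subsingleton.elim (α := MemSym n) a b⟩⟩
  infer_instance

instance (n : ℕ) : IsEmpty (LSet.Functions n) := ⟨fun f => nomatch f⟩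

lemma card_LSet : LSet.card ≤ ℵ₀ := by
  have h : Countable LSet.Symbols := by
    unfold FirstOrder.Language.Symbols
    infer_instance
  exact Cardinal.mk_le_aleph0_iff.2 h

lemma card_skolem : #(Σ n, LSet.skolem₁.Functions n) ≤ ℵ₀ := by
  have h1 : #(Σ n, LSet.skolem₁.Functions n) ≤ #(Σ n, LSet.BoundedFormula Empty n) := by
    exact ⟨⟨Sigma.map Nat.succ fun _ => id,
          Nat.succ_injective.sigma_map fun _ => Function.injective_id⟩⟩
  refine h1.trans (FirstOrder.Language.BoundedFormula.card_le.trans ?_)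
  simp [card_LSet]

section
variable (N : Set ZFSet.{u}) [Nonempty N]

/-- The Skolem hull of a subset of `N`. -/
noncomputable def hull (Z : Set ZFSet.{u}) : Set ZFSet.{u} :=
  Subtype.val '' (FirstOrder.Language.Substructure.closure LSet.skolem₁
    (Subtype.val ⁻¹' Z : Set N) : Set N)

variable {N}

lemma hull_sub (Z : Set ZFSet.{u}) : hull N Z ⊆ N := by
  rintro _ ⟨x, _, rfl⟩
  exact x.2

lemma subset_hull {Z : Set ZFSet.{u}} (hZ : Z ⊆ N) : Z ⊆ hull N Z := by
  intro x hx
  exact ⟨⟨x, hZ hx⟩, FirstOrder.Language.Substructure.subset_closure (by exact hx), rfl⟩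

lemma card_hull (Z : Set ZFSet.{u}) : #(hull N Z) ≤ max ℵ₀ #Z := by
  refine (Cardinal.mk_image_le).trans ?_
  have h := FirstOrder.Language.Substructure.lift_card_closure_le (L := LSet.skolem₁)
    (s := (Subtype.val ⁻¹' Z : Set N))
  rw [Cardinal.lift_id'.{0, u + 1}] at h
  refine h.trans ?_
  refine max_le (le_max_left _ _) ?_
  refine (Cardinal.add_le_max _ _).trans ?_
  refine max_le (max_le ?_ ?_) (le_max_left _ _)
  · rw [Cardinal.lift_id'.{0, u + 1}]
    refine le_trans ?_ (le_max_right _ _)
    exact Cardinal.mk_preimage_of_injective _ _ Subtype.val_injective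
  · refine le_trans ?_ (le_max_left _ _)
    rw [Cardinal.lift_le_aleph0]
    exact card_skolem

/-- The union of a chain of sets with hulls contained in the next is an elementary
substructure. -/
lemma elemSub_of_chain {X : ℕ → Set ZFSet.{u}} (hX : ∀ n, X n ⊆ N)
    (hs : ∀ n, hull N (X n) ⊆ X (n + 1)) : ElemSub (⋃ n, X n) N := by
  have hmono : Monotone X := monotone_nat_of_le_succ fun n => (subset_hull (hX n)).trans (hs n)
  have hsub : (⋃ n, X n) ⊆ N := Set.iUnion_subset hX
  let f : (⋃ n, X n : Set ZFSet.{u}) ↪[LSet] N :=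
    { toFun := fun x => ⟨x.1, hsub x.2⟩
      inj' := fun a b h => by
        apply Subtype.ext
        have h' : (⟨a.1, hsub a.2⟩ : N) = ⟨b.1, hsub b.2⟩ := h
        have h2 := Subtype.ext_iff.1 h'
        exact h2
      map_fun' := fun g => nomatch g
      map_rel' := fun r v => by
        cases r
        exact Iff.rfl }
  refine ⟨f.toElementaryEmbedding ?_, fun x => rfl⟩
  intro n φ x a ha
  -- all the parameters are in one `X m`
  have hex : ∀ i, ∃ m, (x i).1 ∈ X m := fun i => Set.mem_iUnion.1 (x i).2
  choose m hm using hex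
  obtain ⟨M, hM⟩ : ∃ M, ∀ i, m i ≤ M := ⟨Finset.univ.sup m, fun i => Finset.le_sup (Finset.mem_univ i)⟩
  let g : LSet.skolem₁.Functions n := φ
  have hg : FirstOrder.Language.Structure.funMap g (f ∘ x) ∈
      (FirstOrder.Language.Substructure.closure LSet.skolem₁
        (Subtype.val ⁻¹' X M : Set N) : Set N) := by
    apply FirstOrder.Language.Substructure.fun_mem
    intro i
    apply FirstOrder.Language.Substructure.subset_closure
    exact hmono (hM i) (hm i)
  have hg2 : (FirstOrder.Language.Structure.funMap g (f ∘ x)).1 ∈ X (M + 1) :=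
    hs M ⟨_, hg, rfl⟩
  refine ⟨⟨_, Set.mem_iUnion.2 ⟨M + 1, hg2⟩⟩, ?_⟩
  exact Classical.epsilon_spec (p := fun a => FirstOrder.Language.BoundedFormula.Realize φ default
          (Fin.snoc (f ∘ x) a)) ⟨a, ha⟩

end

end Q210.RC
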