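import Pool.Agent.Q210.RC.ZFm
import Pool.Agent.Q210.RC.Codes

open Cardinal Ordinal Set FirstOrder

universe u

namespace Q210.RC

lemma exists_gt_of_small {c : Cardinal.{u}} (hc : c.IsRegular) {s : Set c.ord.ToType}
    (hs : #s < c) : ∃ b, ∀ k ∈ s, k < b := by
  have hunb : ¬ IsCofinal s := by
    intro hcof
    have h8 := Order.cof_le hcof
    rw [Ordinal.cof_toType, hc.cof_ord] at h8
    exact absurd hs (not_lt.2 h8)
  unfold IsCofinal at hunb
  push Not at hunb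
  exact hunb

lemma exists_gt_seq {c : Cardinal.{u}} (hc : c.IsRegular) (hc0 : ℵ₀ < c) (s : ℕ → c.ord.ToType) :
    ∃ b, ∀ n, s n < b := by
  obtain ⟨b, hb⟩ := exists_gt_of_small hc (s := Set.range s) (by
    refine lt_of_le_of_lt ?_ hc0
    exact Cardinal.mk_le_aleph0_iff.2 (Set.countable_range s).to_subtype)
  exact ⟨b, fun n => hb _ ⟨n, rfl⟩⟩

variable {κ : Cardinal.{u}}

/-- replace `G i` by its complement when `i ∉ e`. -/
def compl' (G : κ.ord.ToType → Set κ.ord.ToType) (e : Set κ.ord.ToType) :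
    κ.ord.ToType → Set κ.ord.ToType := fun i => {k | k ∈ G i ↔ i ∈ e}

/-- the components of the parameter. -/
noncomputable def comps {St : Type u} (s₀ : St)
    (P : St → κ.ord.ToType → Set κ.ord.ToType)
    (A : Set κ.ord.ToType → κ.ord.ToType → Set κ.ord.ToType)
    (step : St → Set κ.ord.ToType → St) (C : ℕ → κ.ord.ToType → Set κ.ord.ToType) :
    ℕ → ZFSet.{u}
  | 0 => wo St s₀
  | 1 => graph (wo St) seqZ P
  | 2 => graph setZ seqZ A
  | 3 => graph (wo St) (fun g : Set κ.ord.ToType → St => graph setZ (wo St) g) step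
  | 4 => graph seqZ (fun h : Set κ.ord.ToType → (κ.ord.ToType → Set κ.ord.ToType) =>
      graph setZ seqZ h) compl'
  | (n + 5) => seqZ (C n)

lemma seqZ_injective : Function.Injective
    (seqZ : (κ.ord.ToType → Set κ.ord.ToType) → ZFSet.{u}) := by
  intro G G' h
  funext k
  have h1 : ZFSet.pair (ot k).toZFSet (setZ (G k)) ∈ seqZ G' := by
    rw [← h]
    exact pair_mem_seqZ.2 ⟨k, rfl, rfl⟩
  obtain ⟨k', hk', h2⟩ := pair_mem_seqZ.1 h1
  rw [ot_inj.1 (toZFSet_injective hk')] at h2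
  exact (setZ_injective h2).symm

theorem mside (hR : Ramsey Delta κ) {St : Type u} (s₀ : St)
    (P : St → κ.ord.ToType → Set κ.ord.ToType)
    (A : Set κ.ord.ToType → κ.ord.ToType → Set κ.ord.ToType)
    (step : St → Set κ.ord.ToType → St) (C : ℕ → κ.ord.ToType → Set κ.ord.ToType) :
    ∃ (D : Set κ.ord.ToType) (s : ℕ → St) (e b c : ℕ → Set κ.ord.ToType) (β : κ.ord.ToType),
      IsStationary D ∧ s 0 = s₀ ∧ (∀ n, s (n + 1) = step (s n) (b n)) ∧
      ∀ ξ ∈ D, β < ξ → ∀ n, ∀ i < ξ, (ξ ∈ P (s n) i ↔ i ∈ e n) ∧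
        (ξ ∈ A (e n) i ↔ i ∈ b n) ∧ (ξ ∈ C n i ↔ i ∈ c n) := by
  classical
  obtain ⟨hκ0, hκ, hR⟩ := hR
  let X := comps s₀ P A step C
  let x : ZFSet.{u} := ZFSet.range (fun n : ULift.{u} ℕ =>
    ZFSet.pair ((n.down : Ordinal.{u})).toZFSet (X n.down))
  obtain ⟨θ, hθ, hκθ, hθ0, hx⟩ := exists_theta κ x
  obtain ⟨M, U, hwm, hMH, hxM, hU, hunif, hamen, hnorm, hΔ⟩ := hR θ hθ hκθ x hx
  -- the components are in `M`
  have hX : ∀ n, X n ∈ M := by
    intro n
    have h1 : ((n : Ordinal.{u})).toZFSet ∈ M := by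
      apply hwm.subset
      have : (n : Ordinal.{u}) < ω := Ordinal.natCast_lt_omega0 n
      refine this.le.trans ?_
      rw [Cardinal.omega0_le_ord]
      exact hκ0.le
    refine elem_app hθ hMH hxM h1 (y := X n) (ZFSet.mem_range.2 ⟨⟨n⟩, rfl⟩) ?_
    intro y' hy'
    obtain ⟨⟨m⟩, hm⟩ := ZFSet.mem_range.1 hy'
    rw [ZFSet.pair_inj] at hm
    have h2 : m = n := by
      have := toZFSet_injective hm.1
      exact_mod_cast this
    rw [← hm.2, h2]
  have app : ∀ {T T' : Type u} (c : T → ZFSet.{u}) (c' : T' → ZFSet.{u}) (f : T → T'),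
      Function.Injective c → graph c c' f ∈ M → ∀ t, c t ∈ M → c' (f t) ∈ M := by
    intro T T' c c' f hc hf t ht
    refine elem_app hθ hMH hf ht (pair_mem_graph.2 ⟨t, rfl, rfl⟩) ?_
    intro y' hy'
    obtain ⟨t', ht', rfl⟩ := pair_mem_graph.1 hy'
    rw [hc ht']
  have hP : ∀ s, wo St s ∈ M → seqZ (P s) ∈ M := app _ _ _ (wo_injective St) (hX 1)
  have hA : ∀ a, setZ a ∈ M → seqZ (A a) ∈ M := app _ _ _ setZ_injective (hX 2)
  have hstep : ∀ s b, wo St s ∈ M → setZ b ∈ M → wo St (step s b) ∈ M := by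
    intro s b hs hb
    exact app _ _ _ setZ_injective (app _ _ _ (wo_injective St) (hX 3) s hs) b hb
  have hcompl : ∀ (G : κ.ord.ToType → Set κ.ord.ToType) (e : Set κ.ord.ToType), seqZ G ∈ M → setZ e ∈ M → seqZ (compl' G e) ∈ M := by
    intro G e hG he
    exact app _ _ _ setZ_injective (app _ _ _ seqZ_injective (hX 4) G hG) e he
  have hC : ∀ n, seqZ (C n) ∈ M := fun n => hX (n + 5)
  -- amenability
  have ham : ∀ G : κ.ord.ToType → Set κ.ord.ToType, seqZ G ∈ M →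
      setZ {i | setZ (G i) ∈ U} ∈ M := by
    intro G hG
    rw [← amen_seqZ]
    exact hamen _ hG (seqZ_isSeq G)
  obtain ⟨E, hE, hD⟩ := hΔ
  let D : Set κ.ord.ToType := {β | ∀ α, α < β → (ot β).toZFSet ∈ E α}
  have hmemM : ∀ G : κ.ord.ToType → Set κ.ord.ToType, seqZ G ∈ M → ∀ i, setZ (G i) ∈ M := by
    intro G hG i
    have h1 : (ot i).toZFSet ∈ M := hwm.subset _ (ot_lt i).le
    refine elem_app hθ hMH hG h1 (pair_mem_seqZ.2 ⟨i, rfl, rfl⟩) ?_
    intro y' hy'
    obtain ⟨k, hk, rfl⟩ := pair_mem_seqZ.1 hy'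
    rw [ot_inj.1 (toZFSet_injective hk)]
  have hdec : ∀ G : κ.ord.ToType → Set κ.ord.ToType, seqZ G ∈ M →
      ∃ β, ∀ ξ ∈ D, β < ξ → ∀ i < ξ, (ξ ∈ G i ↔ i ∈ {i | setZ (G i) ∈ U}) := by
    intro G hG
    let e : Set κ.ord.ToType := {i | setZ (G i) ∈ U}
    have he : setZ e ∈ M := ham G hG
    have hG' := hcompl G e hG he
    have hall : ∀ i, setZ (compl' G e i) ∈ U := by
      intro i
      by_cases hi : i ∈ e
      · have : compl' G e i = G i := by
          ext k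
          change (k ∈ G i ↔ i ∈ e) ↔ k ∈ G i
          simp [hi]
        rw [this]
        exact hi
      · have : compl' G e i = (G i)ᶜ := by
          ext k
          change (k ∈ G i ↔ i ∈ e) ↔ ¬ k ∈ G i
          simp [hi]
        rw [this, ← diff_setZ]
        rcases hU.ultra (setZ (G i)) (hmemM G hG i) (setZ_sub _) with h | h
        · exact absurd h hi
        · exact h
    have hd : diag κ (seqZ (compl' G e)) ∈ U := by
      refine hnorm _ hG' (seqZ_isSeq _) ?_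
      intro α B hB
      obtain ⟨k, _, rfl⟩ := pair_mem_seqZ.1 hB
      exact hall k
    rw [← hE] at hd
    obtain ⟨β, hβ⟩ := hd
    refine ⟨β, fun ξ hξ hβξ i hi => ?_⟩
    have h1 := hξ β hβξ
    rw [hβ, diag_seqZ, ot_mem_setZ] at h1
    exact h1 i hi
  -- the recursion
  let ee : St → Set κ.ord.ToType := fun s => {i | setZ (P s i) ∈ U}
  let bb : St → Set κ.ord.ToType := fun s => {i | setZ (A (ee s) i) ∈ U}
  let s : ℕ → St := fun n => Nat.rec s₀ (fun _ t => step t (bb t)) n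
  have hs0 : s 0 = s₀ := rfl
  have hs1 : ∀ n, s (n + 1) = step (s n) (bb (s n)) := fun n => rfl
  have heM : ∀ t, wo St t ∈ M → setZ (ee t) ∈ M := fun t ht => ham _ (hP t ht)
  have hbM : ∀ t, wo St t ∈ M → setZ (bb t) ∈ M := fun t ht => ham _ (hA _ (heM t ht))
  have hsM : ∀ n, wo St (s n) ∈ M := by
    intro n
    induction n with
    | zero => exact hX 0
    | succ n ih => rw [hs1]; exact hstep _ _ ih (hbM _ ih)
  choose β1 hβ1 using fun n => hdec _ (hP _ (hsM n))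
  choose β2 hβ2 using fun n => hdec _ (hA _ (heM _ (hsM n)))
  choose β3 hβ3 using fun n => hdec _ (hC n)
  obtain ⟨β, hβ⟩ := exists_gt_seq hκ hκ0 (fun n => max (β1 n) (max (β2 n) (β3 n)))
  refine ⟨D, s, fun n => ee (s n), fun n => bb (s n), fun n => {i | setZ (C n i) ∈ U}, β, hD,
    rfl, hs1, ?_⟩
  intro ξ hξ hβξ n i hi
  have h := (hβ n).trans hβξ
  refine ⟨?_, ?_, ?_⟩
  · exact hβ1 n ξ hξ (lt_of_le_of_lt (le_max_left _ _) h) i hi
  · exact hβ2 n ξ hξ (lt_of_le_of_lt ((le_max_left _ _).trans (le_max_right _ _)) h) i hi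
  · exact hβ3 n ξ hξ (lt_of_le_of_lt ((le_max_right _ _).trans (le_max_right _ _)) h) i hi

end Q210.RC
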