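import Pool.Agent.Q210.RC.Prep

open Cardinal Ordinal Set FirstOrder

universe u

namespace Q210.RC

variable {κ : Cardinal.{u}}

/-- the property of having a model and an ultrafilter -/
def Wit (c θ : Cardinal.{u}) (x : ZFSet.{u}) : Prop :=
  ∃ M U : Set ZFSet.{u}, WeakModel c M ∧ ElemSub M (H θ) ∧ x ∈ M ∧
    IsUltra c M U ∧ Uniform c U ∧ Amenable c M U ∧ MNormal c M U ∧ CC c M U

lemma exists_data (γ : κ.ord.ToType) : ∃ (θ : Cardinal.{u}) (x : ZFSet.{u}),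
    θ.IsRegular ∧ ℵ₀ < θ ∧ (ot γ).card < θ ∧ x ∈ H θ ∧
    ∀ c : Cardinal.{u}, c.ord = ot γ → c.IsRegular → ℵ₀ < c → ¬ Ramsey CC c → ¬ Wit c θ x := by
  classical
  by_cases h : ∃ c : Cardinal.{u}, c.ord = ot γ ∧ c.IsRegular ∧ ℵ₀ < c ∧ ¬ Ramsey CC c
  · obtain ⟨c, hc, hreg, hc0, hn⟩ := h
    have : ∃ θ : Cardinal.{u}, θ.IsRegular ∧ c < θ ∧ ¬ RamseyAt CC c θ := by
      by_contra hcon
      push Not at hcon
      exact hn ⟨hc0, hreg, hcon⟩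
    obtain ⟨θ, hθ, hcθ, hn'⟩ := this
    unfold RamseyAt at hn'
    push Not at hn'
    obtain ⟨x, hx, hn'⟩ := hn'
    refine ⟨θ, x, hθ, hc0.trans hcθ, ?_, hx, ?_⟩
    · rw [← hc, Cardinal.card_ord]
      exact hcθ
    · intro c' hc' _ _ _ hw
      have : c' = c := Cardinal.ord_injective (hc'.trans hc.symm)
      subst this
      obtain ⟨M, U, h1, h2, h3, h4, h5, h6, h7, h8⟩ := hw
      exact hn' M U h1 h2 h3 h4 h5 h6 h7 h8
  · refine ⟨Order.succ (max ℵ₀ (ot γ).card), ∅, Cardinal.isRegular_succ (le_max_left _ _),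
      Order.lt_succ_of_le (le_max_left _ _), Order.lt_succ_of_le (le_max_right _ _),
      ⟨∅, ZFSet.isTransitive_empty, fun _ h => h, ?_⟩, ?_⟩
    · rw [ZFSet.card_empty]
      exact aleph0_pos.trans (Order.lt_succ_of_le (le_max_left _ _))
    · intro c h1 h2 h3 h4
      exact absurd ⟨c, h1, h2, h3, h4⟩ h

lemma nonempty_H {θ : Cardinal.{u}} (hθ0 : ℵ₀ < θ) : Nonempty (H θ) :=
  ⟨⟨∅, ∅, ZFSet.isTransitive_empty, fun _ h => h, by
    rw [ZFSet.card_empty]; exact aleph0_pos.trans hθ0⟩⟩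

theorem stationary_cc (hR : Ramsey Delta κ) :
    IsStationary {γ : κ.ord.ToType | ∃ c : Cardinal.{u}, c.ord = ot γ ∧ Ramsey CC c} := by
  classical
  intro t ht
  by_contra hcon
  have hcon' : ∀ γ ∈ t, ∀ c : Cardinal.{u}, c.ord = ot γ → ¬ Ramsey CC c := by
    intro γ hγ c hc hR
    exact hcon ⟨γ, ⟨c, hc, hR⟩, hγ⟩
  obtain ⟨hκ0, hκ, _⟩ := id hR
  choose θ x hθ hθ0 hθc hx hbad using exists_data (κ := κ)
  have hneH : ∀ γ, Nonempty (H (θ γ)) := fun γ => nonempty_H (hθ0 γ)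
  -- a set containing all `H (θ γ)`
  obtain ⟨V, hV⟩ : ∃ V : ZFSet.{u}, ∀ γ, ∀ z ∈ H (θ γ), z ∈ V := by
    refine ⟨ZFSet.vonNeumann (⨆ γ, (θ γ).ord), fun γ z hz => ?_⟩
    have h1 : (θ γ).ord ≤ ⨆ γ, (θ γ).ord := Ordinal.le_iSup _ γ
    exact ZFSet.vonNeumann_subset_of_le h1 (H_subset_vonNeumann hz)
  have hneK : Nonempty κ.ord.ToType := by
    rw [← Cardinal.mk_ne_zero_iff, Cardinal.mk_toType, Cardinal.card_ord]
    exact (aleph0_pos.trans hκ0).ne'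
  obtain ⟨k0⟩ := hneK
  have hneY : Nonempty (Shrink.{u} V) := ⟨equivShrink V ⟨x k0, hV k0 _ (hx k0)⟩⟩
  have hKc : #κ.ord.ToType = κ := by rw [Cardinal.mk_toType, Cardinal.card_ord]
  -- pairing functions
  obtain ⟨π2⟩ : Nonempty (κ.ord.ToType × κ.ord.ToType ≃ κ.ord.ToType) := by
    rw [← Cardinal.eq, Cardinal.mk_prod, Cardinal.lift_id, hKc, Cardinal.mul_eq_self hκ0.le]
  let π3 : κ.ord.ToType × (κ.ord.ToType × κ.ord.ToType) ≃ κ.ord.ToType :=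
    ((Equiv.refl _).prodCongr π2).trans π2
  have hHb : ∀ ρ : κ.ord.ToType, ∃ b : κ.ord.ToType, ρ < b ∧ ∀ δ ≤ ρ, ∀ α ≤ ρ, π2 (δ, α) < b ∧
      ∀ ξ ≤ ρ, π3 (δ, α, ξ) < b := by
    intro ρ
    have hIic : #(Set.Iic ρ) < κ := mk_Iic_lt hκ0.le ρ
    have h2 : #(Set.Iic ρ ×ˢ Set.Iic ρ : Set _) < κ := by
      rw [Cardinal.mk_setProd]
      simpa using Cardinal.mul_lt_of_lt hκ0.le hIic hIic
    have h3 : #(Set.Iic ρ ×ˢ (Set.Iic ρ ×ˢ Set.Iic ρ) : Set _) < κ := by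
      rw [Cardinal.mk_setProd]
      simpa using Cardinal.mul_lt_of_lt hκ0.le hIic h2
    obtain ⟨b, hb⟩ := exists_gt_of_small hκ (s := insert ρ
      ((π2 '' (Set.Iic ρ ×ˢ Set.Iic ρ)) ∪ (π3 '' (Set.Iic ρ ×ˢ (Set.Iic ρ ×ˢ Set.Iic ρ))))) (by
        refine lt_of_le_of_lt Cardinal.mk_insert_le ?_
        refine Cardinal.add_lt_of_lt hκ0.le ?_ (one_lt_aleph0.trans hκ0)
        refine lt_of_le_of_lt (Cardinal.mk_union_le _ _) ?_
        exact Cardinal.add_lt_of_lt hκ0.le (lt_of_le_of_lt mk_image_le h2)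
          (lt_of_le_of_lt mk_image_le h3))
    refine ⟨b, hb _ (Set.mem_insert _ _), fun δ hδ α hα => ⟨?_, fun ξ hξ => ?_⟩⟩
    · exact hb _ (Set.mem_insert_of_mem _ (Or.inl ⟨(δ, α), ⟨hδ, hα⟩, rfl⟩))
    · exact hb _ (Set.mem_insert_of_mem _ (Or.inr ⟨(δ, α, ξ), ⟨hδ, hα, hξ⟩, rfl⟩))
  choose Hb hHb1 hHb2 using hHb
  -- witnesses of singularity
  have hw : ∀ γ : κ.ord.ToType, ∃ ν : κ.ord.ToType, ∃ f : κ.ord.ToType → κ.ord.ToType,
      ω < ot γ → (∀ ρ < γ, ∃ ρ' < γ, ρ < ρ') →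
      (¬ ∃ c : Cardinal.{u}, c.ord = ot γ ∧ c.IsRegular ∧ ℵ₀ < c) →
      ν < γ ∧ (∀ η, f η < γ) ∧ ∀ ρ < γ, ∃ η < ν, ρ ≤ f η := by
    intro γ
    by_cases h : ω < ot γ ∧ (∀ ρ < γ, ∃ ρ' < γ, ρ < ρ') ∧
      (¬ ∃ c : Cardinal.{u}, c.ord = ot γ ∧ c.IsRegular ∧ ℵ₀ < c)
    · obtain ⟨ν, hν, f, hf⟩ := nonreg h.1 h.2.1 h.2.2
      exact ⟨ν, f, fun _ _ _ => ⟨hν, hf.1, hf.2⟩⟩
    · exact ⟨γ, fun _ => γ, fun h1 h2 h3 => absurd ⟨h1, h2, h3⟩ h⟩
  choose ν w hw using hw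
  -- the sets added at every step
  let BZ : κ.ord.ToType → Set κ.ord.ToType → κ.ord.ToType → ZFSet.{u} := fun γ b δ =>
    ZFSet.range (fun α : {α : κ.ord.ToType // α < γ ∧ π2 (δ, α) ∈ b} => (ot α.1).toZFSet)
  let nx : κ.ord.ToType → Set ZFSet.{u} → Set κ.ord.ToType → Set ZFSet.{u} := fun γ Z b =>
    hull (H (θ γ)) (W (θ γ) (ot γ) Z (fun δ : Set.Iio γ => BZ γ b δ.1))
  let g0 : κ.ord.ToType → Set ZFSet.{u} := fun γ =>
    hull (H (θ γ)) (insert (x γ) (Set.range (fun α : Set.Iic γ => (ot α.1).toZFSet)))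
  obtain ⟨D, s, e, b, cc, β, hD, hs0, hs1, hmain⟩ := mside hR
    (St := κ.ord.ToType → κ.ord.ToType → Shrink.{u} V)
    (fun γ => en V γ (g0 γ))
    (fun s i => {γ | Rel (val V (s γ (π3.symm i).1)) (ot (π3.symm i).2.1) (ot (π3.symm i).2.2)})
    (fun e j => {ξ | π3 ((π2.symm j).1, (π2.symm j).2, ξ) ∈ e})
    (fun s b γ => en V γ (nx γ (gs V s γ) b))
    (fun n i => match n with
      | 0 => {γ | Hb i < γ}
      | 1 => {γ | w γ (π2.symm i).1 ≤ (π2.symm i).2}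
      | _ => {γ | ν γ ≤ i})
  have hunb := stationary_unbounded hκ hκ0 hD
  -- closure points
  have hc0 : ∀ i, i ∈ cc 0 := by
    intro i
    obtain ⟨ξ, hξ, h⟩ := hunb (max β (max i (Hb i)))
    have h1 : β < ξ := (le_max_left _ _).trans_lt h
    have h2 : i < ξ := ((le_max_left _ _).trans (le_max_right _ _)).trans_lt h
    have h3 : Hb i < ξ := ((le_max_right _ _).trans (le_max_right _ _)).trans_lt h
    exact (hmain ξ hξ h1 0 i h2).2.2.1 h3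
  have hcl : ∀ ξ ∈ D, β < ξ → ∀ ρ < ξ, Hb ρ < ξ := fun ξ hξ h ρ hρ =>
    (hmain ξ hξ h 0 ρ hρ).2.2.2 (hc0 ρ)
  have hlim : ∀ ξ ∈ D, β < ξ → ∀ ρ < ξ, ∃ ρ' < ξ, ρ < ρ' := fun ξ hξ h ρ hρ =>
    ⟨Hb ρ, hcl ξ hξ h ρ hρ, hHb1 ρ⟩
  have hp2 : ∀ ξ ∈ D, β < ξ → ∀ δ < ξ, ∀ α < ξ, π2 (δ, α) < ξ := by
    intro ξ hξ h δ hδ α hα
    exact (hHb2 (max δ α) δ (le_max_left _ _) α (le_max_right _ _)).1.trans
      (hcl ξ hξ h _ (max_lt hδ hα))
  have hp3 : ∀ ξ ∈ D, β < ξ → ∀ δ < ξ, ∀ α < ξ, ∀ η < ξ, π3 (δ, α, η) < ξ := by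
    intro ξ hξ h δ hδ α hα η hη
    exact ((hHb2 (max δ (max α η)) δ (le_max_left _ _) α
      ((le_max_left _ _).trans (le_max_right _ _))).2 η
      ((le_max_right _ _).trans (le_max_right _ _))).trans
      (hcl ξ hξ h _ (max_lt hδ (max_lt hα hη)))
  obtain ⟨kω, hkω⟩ : ∃ k : κ.ord.ToType, ot k = ω := by
    apply exists_ot
    rw [← Cardinal.ord_aleph0]
    exact Cardinal.ord_lt_ord.2 hκ0
  -- almost all elements of `D` are regular
  have hregkey : ∀ ξ ∈ D, max β kω < ξ → ∀ ξ' ∈ D, ξ < ξ' →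
      (¬ ∃ c : Cardinal.{u}, c.ord = ot ξ ∧ c.IsRegular ∧ ℵ₀ < c) →
      (¬ ∃ c : Cardinal.{u}, c.ord = ot ξ' ∧ c.IsRegular ∧ ℵ₀ < c) → False := by
    intro ξ hξ h ξ' hξ' hlt hn hn'
    have hβξ : β < ξ := (le_max_left _ _).trans_lt h
    have hωξ : ω < ot ξ := by rw [← hkω]; exact ot_lt_ot.2 ((le_max_right _ _).trans_lt h)
    have hβξ' : β < ξ' := hβξ.trans hlt
    have hωξ' : ω < ot ξ' := hωξ.trans (ot_lt_ot.2 hlt)
    obtain ⟨a1, a2, a3⟩ := hw ξ hωξ (hlim ξ hξ hβξ) hn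
    obtain ⟨b1, b2, b3⟩ := hw ξ' hωξ' (hlim ξ' hξ' hβξ') hn'
    have h1 : ν ξ ∈ cc 2 := (hmain ξ hξ hβξ 2 (ν ξ) a1).2.2.1 (le_refl (ν ξ))
    have h2 : ν ξ' ≤ ν ξ := (hmain ξ' hξ' hβξ' 2 (ν ξ) (a1.trans hlt)).2.2.2 h1
    obtain ⟨η, hη, hle⟩ := b3 ξ hlt
    have hηξ : η < ξ := (hη.trans_le h2).trans a1
    have hi : π2 (η, w ξ η) < ξ := hp2 ξ hξ hβξ η hηξ _ (a2 η)
    have h3 : π2 (η, w ξ η) ∈ cc 1 := by
      refine (hmain ξ hξ hβξ 1 _ hi).2.2.1 ?_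
      change w ξ (π2.symm (π2 (η, w ξ η))).1 ≤ (π2.symm (π2 (η, w ξ η))).2
      rw [Equiv.symm_apply_apply]
    have h4 := (hmain ξ' hξ' hβξ' 1 _ (hi.trans hlt)).2.2.2 h3
    change w ξ' (π2.symm (π2 (η, w ξ η))).1 ≤ (π2.symm (π2 (η, w ξ η))).2 at h4
    rw [Equiv.symm_apply_apply] at h4
    exact absurd (hle.trans h4) (not_le.2 (a2 η))
  obtain ⟨β1, hβ1, hreg⟩ : ∃ β1, max β kω ≤ β1 ∧ ∀ ξ ∈ D, β1 < ξ →
      ∃ c : Cardinal.{u}, c.ord = ot ξ ∧ c.IsRegular ∧ ℵ₀ < c := by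
    by_contra hno
    push Not at hno
    obtain ⟨ξ, hξ, h1, h2⟩ := hno (max β kω) le_rfl
    obtain ⟨ξ', hξ', h1', h2'⟩ := hno ξ h1.le
    refine hregkey ξ hξ h1 ξ' hξ' h1' ?_ ?_
    · rintro ⟨c, a, b', d⟩
      exact absurd d (not_lt.2 (h2 c a b'))
    · rintro ⟨c, a, b', d⟩
      exact absurd d (not_lt.2 (h2' c a b'))
  obtain ⟨γ, hγD, hγt, hβ1γ, hγlim⟩ := exists_limit hκ hκ0 hD ht β1
  obtain ⟨c, hc, hcreg, hcℵ⟩ := hreg γ hγD hβ1γ
  refine hbad γ c hc hcreg hcℵ (hcon' γ hγt c hc) ?_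
  have hβγ : β < γ := ((le_max_left _ _).trans hβ1).trans_lt hβ1γ
  have hcγ : (ot γ).card = c := by rw [← hc, Cardinal.card_ord]
  have hcθ : c < θ γ := by have := hθc γ; rwa [hcγ] at this
  have hIio : Cardinal.lift.{u + 1} #(Set.Iio γ) = Cardinal.lift.{u + 1} c := by
    rw [mk_Iio_ot, hcγ]
  have hℵc : (ℵ₀ : Cardinal.{u + 1}) ≤ Cardinal.lift.{u + 1} c := by
    rw [Cardinal.aleph0_le_lift]; exact hcℵ.le
  let g : ℕ → Set ZFSet.{u} := fun n => gs V (s n) γ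
  have hgcard : ∀ n, #(g n) ≤ Cardinal.lift.{u + 1} c := fun n => by
    rw [← hIio]; exact card_gs V (s n) γ
  have hg0 : g 0 = g0 γ := by
    have h1 : g 0 = {z | ∃ δ < γ, val V (en V γ (g0 γ) δ) = z} := by
      change gs V (s 0) γ = _
      unfold gs
      rw [hs0]
    rw [h1]
    refine en_spec V γ (g0 γ) (fun z hz => hV γ z (hull_sub _ hz)) ?_ ?_
    · refine ⟨x γ, subset_hull ?_ (Set.mem_insert _ _)⟩
      rintro z (rfl | ⟨α, rfl⟩)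
      · exact hx γ
      · refine ord_mem_H (lt_of_le_of_lt ?_ (hθc γ))
        exact Ordinal.card_le_card (ot_le_ot.2 α.2)
    · rw [hIio]
      refine (card_hull _).trans (max_le hℵc ?_)
      refine Cardinal.mk_insert_le.trans (Cardinal.add_le_of_le hℵc ?_
        (one_le_aleph0.trans hℵc))
      have hr : #(Set.range (fun α : Set.Iic γ => (ot α.1).toZFSet)) ≤
          Cardinal.lift.{u + 1} #(Set.Iic γ) := by
        have := Cardinal.mk_range_le_lift (f := fun α : Set.Iic γ => (ot α.1).toZFSet)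
        rwa [Cardinal.lift_id'.{u, u + 1}] at this
      refine hr.trans ?_
      rw [← Set.Iio_insert, Cardinal.lift_le]
      refine Cardinal.mk_insert_le.trans (Cardinal.add_le_of_le hcℵ.le ?_
        (one_le_aleph0.trans hcℵ.le))
      rw [mk_Iio_ot, hcγ]
  have hgn : ∀ n, g n ⊆ H (θ γ) ∧ (g n).Nonempty ∧ g (n + 1) = nx γ (g n) (b n) := by
    have hstep : ∀ n, g n ⊆ H (θ γ) → (g n).Nonempty → g (n + 1) = nx γ (g n) (b n) := by
      intro n hn1 hn2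
      have h1 : g (n + 1) = {z | ∃ δ < γ, val V (en V γ (nx γ (g n) (b n)) δ) = z} := by
        change gs V (s (n + 1)) γ = _
        unfold gs
        rw [hs1]
      rw [h1]
      refine en_spec V γ _ (fun z hz => hV γ z (hull_sub _ hz)) ?_ ?_
      · obtain ⟨z, hz⟩ := hn2
        exact ⟨z, subset_hull Set.inter_subset_right ⟨Or.inl hz, hn1 hz⟩⟩
      · rw [hIio]
        refine (card_hull _).trans (max_le hℵc ?_)
        exact card_W _ _ _ _ hℵc (hgcard n) hIio.le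
    have hnx : ∀ Z b, nx γ Z b ⊆ H (θ γ) := fun Z b => hull_sub _
    have hnxne : ∀ n, g n ⊆ H (θ γ) → (g n).Nonempty → (nx γ (g n) (b n)).Nonempty := by
      rintro n hn1 ⟨z, hz⟩
      exact ⟨z, subset_hull Set.inter_subset_right ⟨Or.inl hz, hn1 hz⟩⟩
    have hP : ∀ n, g n ⊆ H (θ γ) ∧ (g n).Nonempty := by
      intro n
      induction n with
      | zero =>
        rw [hg0]
        refine ⟨hull_sub _, x γ, subset_hull ?_ (Set.mem_insert _ _)⟩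
        rintro z (rfl | ⟨α, rfl⟩)
        · exact hx γ
        · refine ord_mem_H (lt_of_le_of_lt ?_ (hθc γ))
          exact Ordinal.card_le_card (ot_le_ot.2 α.2)
      | succ n ih =>
        rw [hstep n ih.1 ih.2]
        exact ⟨hnx _ _, hnxne n ih.1 ih.2⟩
    exact fun n => ⟨(hP n).1, (hP n).2, hstep n (hP n).1 (hP n).2⟩
  let M : Set ZFSet.{u} := ⋃ n, g n
  have hWsub : ∀ n, W (θ γ) (ot γ) (g n) (fun δ : Set.Iio γ => BZ γ (b n) δ.1) ⊆ g (n + 1) := by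
    intro n
    rw [(hgn n).2.2]
    exact subset_hull Set.inter_subset_right
  have hWM : ∀ n, W (θ γ) (ot γ) (g n) (fun δ : Set.Iio γ => BZ γ (b n) δ.1) ⊆ M := fun n z hz =>
    Set.mem_iUnion.2 ⟨n + 1, hWsub n hz⟩
  have hgmono : Monotone g := by
    refine monotone_nat_of_le_succ fun n z hz => hWsub n ⟨Or.inl hz, (hgn n).1 hz⟩
  have hMH : M ⊆ H (θ γ) := Set.iUnion_subset fun n => (hgn n).1
  have hMel : ElemSub M (H (θ γ)) := by
    refine elemSub_of_chain (fun n => (hgn n).1) (fun n => ?_)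
    rw [(hgn n).2.2]
    exact hull_mono fun z hz => ⟨Or.inl hz, (hgn n).1 hz⟩
  have hg0sub : insert (x γ) (Set.range (fun α : Set.Iic γ => (ot α.1).toZFSet)) ⊆ g 0 := by
    rw [hg0]
    refine subset_hull ?_
    rintro z (rfl | ⟨α, rfl⟩)
    · exact hx γ
    · refine ord_mem_H (lt_of_le_of_lt ?_ (hθc γ))
      exact Ordinal.card_le_card (ot_le_ot.2 α.2)
  have hMsub : ∀ α : Ordinal.{u}, α ≤ c.ord → α.toZFSet ∈ M := by
    intro α hα
    rw [hc] at hα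
    obtain ⟨k, hk⟩ := exists_ot (o := κ.ord) (hα.trans_lt (ot_lt γ))
    refine Set.mem_iUnion.2 ⟨0, hg0sub (Set.mem_insert_of_mem _ ⟨⟨k, ?_⟩, ?_⟩)⟩
    · exact ot_le_ot.1 (by rw [hk]; exact hα)
    · dsimp only
      rw [hk]
  have hxM : x γ ∈ M := Set.mem_iUnion.2 ⟨0, hg0sub (Set.mem_insert _ _)⟩
  have hMcard : #M = Cardinal.lift.{u + 1} c := by
    apply le_antisymm
    · have h1 : M ⊆ Set.range (fun p : ULift.{u + 1} (ℕ × Set.Iio γ) =>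
          val V (s p.down.1 γ p.down.2.1)) := by
        intro z hz
        obtain ⟨n, δ, hδ, rfl⟩ := Set.mem_iUnion.1 hz
        exact ⟨⟨(n, ⟨δ, hδ⟩)⟩, rfl⟩
      refine (Cardinal.mk_le_mk_of_subset h1).trans (mk_range_le.trans ?_)
      rw [Cardinal.mk_uLift, Cardinal.lift_le, Cardinal.mk_prod, mk_Iio_ot, hcγ,
        Cardinal.mk_nat, Cardinal.lift_aleph0, Cardinal.lift_uzero]
      exact Cardinal.mul_le_of_le hcℵ.le hcℵ.le le_rfl
    · rw [← hIio, ← Cardinal.mk_uLift]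
      refine Cardinal.mk_le_of_injective
        (f := fun k : ULift.{u + 1} (Set.Iio γ) => (⟨(ot k.down.1).toZFSet, hMsub _ ?_⟩ : M)) ?_
      · rw [hc]
        exact (ot_lt_ot.2 k.down.2).le
      · intro a b' h
        have h' := Subtype.ext_iff.1 h
        apply ULift.ext
        apply Subtype.ext
        exact ot_inj.1 (toZFSet_injective h')
  have hczH : cz c ∈ H (θ γ) := cz_mem_H hcθ
  have hcz : cz c = (ot γ).toZFSet := by
    unfold cz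
    rw [hc]
  -- closure operations
  have hop : ∀ n z, z ∈ H (θ γ) → (z ∈ (constO (ot γ) '' g n) ∨
      z ∈ ((fun X => (ot γ).toZFSet \ X) '' g n) ∨
      z ∈ (Set.image2 (fun X Y => X ∩ Y) (g n) (g n)) ∨
      z ∈ ((fun F => ZFSet.sep (fun β => ∀ α ∈ β, ∀ A, ZFSet.pair α A ∈ F → β ∈ A)
        (ot γ).toZFSet) '' g n) ∨ z ∈ Set.range (fun δ : Set.Iio γ => BZ γ (b n) δ.1)) →
      z ∈ M := by
    intro n z hzH hz
    refine hWM n ⟨?_, hzH⟩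
    rcases hz with hz | hz | hz | hz | hz
    · exact Or.inr (Or.inl hz)
    · exact Or.inr (Or.inr (Or.inl hz))
    · exact Or.inr (Or.inr (Or.inr (Or.inl hz)))
    · exact Or.inr (Or.inr (Or.inr (Or.inr (Or.inl hz))))
    · exact Or.inr (Or.inr (Or.inr (Or.inr (Or.inr hz))))
  have hconst : ∀ X ∈ M, X ⊆ cz c → constO c.ord X ∈ M := by
    intro X hX hXc
    obtain ⟨n, hn⟩ := Set.mem_iUnion.1 hX
    refine hop n _ ?_ (Or.inl ⟨X, hn, by rw [hc]⟩)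
    refine range_mem_H (hθ γ) ?_ _ (fun k => ?_)
    · rw [Cardinal.mk_toType, Cardinal.card_ord]
      exact hcθ
    · exact pair_mem_H (hθ γ) (H_trans hczH (ot_mem_oz k)) (hMH hX)
  have hdiff : ∀ X ∈ M, cz c \ X ∈ M := by
    intro X hX
    obtain ⟨n, hn⟩ := Set.mem_iUnion.1 hX
    refine hop n _ ?_ (Or.inr (Or.inl ⟨X, hn, by rw [hcz]⟩))
    exact H_subset hczH fun z hz => (ZFSet.mem_sdiff.1 hz).1
  have hinter : ∀ X ∈ M, ∀ Y ∈ M, X ⊆ cz c → X ∩ Y ∈ M := by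
    intro X hX Y hY _
    obtain ⟨n, hn⟩ := Set.mem_iUnion.1 hX
    obtain ⟨m, hm⟩ := Set.mem_iUnion.1 hY
    refine hop (max n m) _ ?_ (Or.inr (Or.inr (Or.inl
      ⟨X, hgmono (le_max_left _ _) hn, Y, hgmono (le_max_right _ _) hm, rfl⟩)))
    exact H_subset (hMH hX) fun z hz => (ZFSet.mem_inter.1 hz).1
  have hdiag : ∀ F ∈ M, diag c F ∈ M := by
    intro F hF
    obtain ⟨n, hn⟩ := Set.mem_iUnion.1 hF
    refine hop n _ ?_ (Or.inr (Or.inr (Or.inr (Or.inl ⟨F, hn, ?_⟩))))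
    · exact H_subset hczH fun z hz => (ZFSet.mem_sep.1 hz).1
    · unfold diag
      rw [hcz]
  -- transfer between `c` and `κ`
  have htr : ∀ t : c.ord.ToType, ∃ k : κ.ord.ToType, ot k = ot t ∧ k < γ := by
    intro t
    have h1 : ot t < ot γ := by rw [← hc]; exact ot_lt t
    obtain ⟨k, hk⟩ := exists_ot (h1.trans (ot_lt γ))
    exact ⟨k, hk, ot_lt_ot.1 (by rw [hk]; exact h1)⟩
  choose j hj1 hj2 using htr
  have hback : ∀ k < γ, ∃ t : c.ord.ToType, ot t = ot k := by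
    intro k hk
    apply exists_ot
    rw [hc]
    exact ot_lt_ot.2 hk
  have hjlt : ∀ t t', j t < j t' ↔ t < t' := by
    intro t t'
    rw [← ot_lt_ot, hj1, hj1, ot_lt_ot]
  obtain ⟨U, hU1, hU2, hU3, hU4, hU5⟩ := gside hcreg hcℵ (hθ γ) hMel hMsub hconst hdiff hinter
    hdiag {t | j t ∈ D} (by
      intro ρ
      obtain ⟨ξ, hξ, h1, h2⟩ := hγlim (j ρ) (hj2 ρ)
      obtain ⟨t, ht⟩ := hback ξ h2
      have h3 : j t = ξ := ot_inj.1 (by rw [hj1, ht])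
      refine ⟨t, ?_, ?_⟩
      · change j t ∈ D
        rw [h3]
        exact hξ
      · rw [← hjlt, h3]
        exact h1) (by
      intro F hF
      obtain ⟨n, δ, hδ, hFδ⟩ := Set.mem_iUnion.1 hF
      refine ⟨{t | π2 (δ, j t) ∈ b n}, ?_, ?_⟩
      · have h1 : setZ {t : c.ord.ToType | π2 (δ, j t) ∈ b n} = BZ γ (b n) δ := by
          ext z
          rw [mem_setZ, ZFSet.mem_range]
          constructor
          · rintro ⟨t, ht, rfl⟩
            exact ⟨⟨j t, hj2 t, ht⟩, by dsimp only; rw [hj1]⟩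
          · rintro ⟨⟨k, hk, hk2⟩, rfl⟩
            obtain ⟨t, ht⟩ := hback k hk
            have h3 : j t = k := ot_inj.1 (by rw [hj1, ht])
            refine ⟨t, ?_, ?_⟩
            · change π2 (δ, j t) ∈ b n
              rw [h3]
              exact hk2
            · dsimp only
              rw [ht]
        rw [h1]
        refine hop n _ ?_ (Or.inr (Or.inr (Or.inr (Or.inr ⟨⟨δ, hδ⟩, rfl⟩))))
        rw [← h1]
        exact H_subset hczH (setZ_sub _)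
      · obtain ⟨ρ, hρ⟩ := hback (max β δ) (max_lt hβγ hδ)
        refine ⟨ρ, ?_⟩
        intro ξ hξ hρξ α hα
        have hξD : j ξ ∈ D := hξ
        have hjρ : j ρ = max β δ := ot_inj.1 (by rw [hj1, hρ])
        have h1 : max β δ < j ξ := by rw [← hjρ]; exact (hjlt _ _).2 hρξ
        have hβξ : β < j ξ := (le_max_left _ _).trans_lt h1
        have hδξ : δ < j ξ := (le_max_right _ _).trans_lt h1
        have hαξ : j α < j ξ := (hjlt _ _).2 hα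
        have hi : π3 (δ, j α, j ξ) < γ := hp3 γ hγD hβγ δ hδ (j α) (hj2 α) (j ξ) (hj2 ξ)
        have e1 := (hmain γ hγD hβγ n _ hi).1
        have e2 := (hmain (j ξ) hξD hβξ n (π2 (δ, j α)) (hp2 (j ξ) hξD hβξ δ hδξ _ hαξ)).2.1
        change Rel (val V (s n γ (π3.symm (π3 (δ, j α, j ξ))).1))
          (ot (π3.symm (π3 (δ, j α, j ξ))).2.1) (ot (π3.symm (π3 (δ, j α, j ξ))).2.2) ↔ _ at e1
        change π3 ((π2.symm (π2 (δ, j α))).1, (π2.symm (π2 (δ, j α))).2, j ξ) ∈ e n ↔ _ at e2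
        rw [Equiv.symm_apply_apply] at e1 e2
        change Rel (val V (s n γ δ)) (ot (j α)) (ot (j ξ)) ↔ _ at e1
        change π3 (δ, j α, j ξ) ∈ e n ↔ _ at e2
        rw [hFδ, hj1, hj1] at e1
        exact e1.trans e2)
  exact ⟨M, U, ⟨hMcard, hMsub, zfcMinus_of_elemSub (hθ γ) (hθ0 γ) hMel⟩, hMel, hxM, hU1, hU2, hU3,
    hU4, hU5⟩

end Q210.RC
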