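import Pool.Agent.Q210.RC.GSide

open Cardinal Ordinal Set FirstOrder

universe u

namespace Q210.RC

variable {κ : Cardinal.{u}}

lemma nonreg {γ : κ.ord.ToType} (hω : ω < ot γ) (hlim : ∀ ρ < γ, ∃ ρ' < γ, ρ < ρ')
    (hn : ¬ ∃ c : Cardinal.{u}, c.ord = ot γ ∧ c.IsRegular ∧ ℵ₀ < c) :
    ∃ ν < γ, ∃ f : κ.ord.ToType → κ.ord.ToType, (∀ η, f η < γ) ∧ ∀ ρ < γ, ∃ η < ν, ρ ≤ f η := by
  classical
  have hsl : Order.IsSuccLimit (ot γ) := by
    refine ⟨?_, ?_⟩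
    · intro hmin
      have := hmin (omega0_pos.le.trans hω.le)
      exact absurd (omega0_pos.trans hω) (not_lt.2 this)
    · intro a ha
      obtain ⟨k, hk⟩ := exists_ot (lt_trans ha.lt (ot_lt γ))
      have hkγ : k < γ := ot_lt_ot.1 (by rw [hk]; exact ha.lt)
      obtain ⟨k', hk', hkk'⟩ := hlim k hkγ
      exact ha.2 (by rw [← hk]; exact ot_lt_ot.2 hkk') (ot_lt_ot.2 hk')
  have hreg := Cardinal.isRegular_cof hsl
  set c := (ot γ).cof with hcdef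
  have hcle : c.ord ≤ ot γ := Ordinal.ord_cof_le _
  have hclt : c.ord < ot γ := by
    refine lt_of_le_of_ne hcle fun h => hn ⟨c, h, hreg, ?_⟩
    rw [← h] at hω
    rw [← Cardinal.ord_aleph0] at hω
    exact Cardinal.ord_lt_ord.1 hω
  obtain ⟨ν, hν⟩ := exists_ot (lt_trans hclt (ot_lt γ))
  have hνγ : ν < γ := ot_lt_ot.1 (by rw [hν]; exact hclt)
  obtain ⟨S, hS, hSc⟩ := Order.exists_cof_eq (α := (ot γ).ToType)
  rw [Ordinal.cof_toType] at hSc
  have hcS : #(Set.Iio ν) = #S := by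
    rw [mk_Iio_ot, hν, Cardinal.card_ord, hSc]
  obtain ⟨E⟩ := Cardinal.eq.1 hcS
  -- transfer from `(ot γ).ToType`
  have htr : ∀ y : (ot γ).ToType, ∃ k : κ.ord.ToType, ot k = ot y ∧ k < γ := by
    intro y
    obtain ⟨k, hk⟩ := exists_ot (lt_trans (ot_lt y) (ot_lt γ))
    exact ⟨k, hk, ot_lt_ot.1 (by rw [hk]; exact ot_lt y)⟩
  choose tr htr1 htr2 using htr
  refine ⟨ν, hνγ, fun η => if h : η < ν then tr (E ⟨η, h⟩).1 else ν, ?_, ?_⟩
  · intro η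
    dsimp only
    split_ifs with h
    · exact htr2 _
    · exact hνγ
  · intro ρ hρ
    obtain ⟨y, hy⟩ := exists_ot (o := ot γ) (ot_lt_ot.2 hρ)
    obtain ⟨z, hz, hyz⟩ := hS y
    obtain ⟨⟨η, hη⟩, hE⟩ := E.surjective ⟨z, hz⟩
    refine ⟨η, hη, ?_⟩
    have hη' : η < ν := hη
    dsimp only
    rw [dif_pos hη']
    have hE' : E ⟨η, hη'⟩ = ⟨z, hz⟩ := hE
    rw [hE']
    apply ot_le_ot.1
    rw [htr1, ← hy]
    exact ot_le_ot.2 hyz

section enum
variable (V : ZFSet.{u})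

/-- decoding of the elements of `V` -/
noncomputable def val (y : Shrink.{u} V) : ZFSet.{u} := ((equivShrink V).symm y).1

lemma val_mem (y : Shrink.{u} V) : val V y ∈ V := ((equivShrink V).symm y).2

lemma exists_val {z : ZFSet.{u}} (hz : z ∈ V) : ∃ y, val V y = z :=
  ⟨equivShrink V ⟨z, hz⟩, by unfold val; rw [Equiv.symm_apply_apply]⟩

/-- the set enumerated by a state at `γ` -/
def gs (s : κ.ord.ToType → κ.ord.ToType → Shrink.{u} V) (γ : κ.ord.ToType) : Set ZFSet.{u} :=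
  {z | ∃ δ < γ, val V (s γ δ) = z}

lemma card_gs (s : κ.ord.ToType → κ.ord.ToType → Shrink.{u} V) (γ : κ.ord.ToType) :
    #(gs V s γ) ≤ Cardinal.lift.{u + 1} #(Set.Iio γ) := by
  have h : gs V s γ ⊆ Set.range (fun δ : ULift.{u + 1} (Set.Iio γ) => val V (s γ δ.down.1)) := by
    rintro _ ⟨δ, hδ, rfl⟩
    exact ⟨⟨⟨δ, hδ⟩⟩, rfl⟩
  refine (Cardinal.mk_le_mk_of_subset h).trans (mk_range_le.trans ?_)
  simp

lemma exists_enum (γ : κ.ord.ToType) (Z : Set ZFSet.{u}) (hZV : ∀ z ∈ Z, z ∈ V)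
    (hne : Z.Nonempty) (hcard : #Z ≤ Cardinal.lift.{u + 1} #(Set.Iio γ)) :
    ∃ q : κ.ord.ToType → Shrink.{u} V, {z | ∃ δ < γ, val V (q δ) = z} = Z := by
  classical
  have hcard' : #Z ≤ #(ULift.{u + 1} (Set.Iio γ)) := by simpa using hcard
  obtain ⟨f⟩ := hcard'
  obtain ⟨z0, hz0⟩ := hne
  have hy : ∀ z : Z, ∃ y, val V y = z.1 := fun z => exists_val V (hZV z.1 z.2)
  choose y hy using hy
  refine ⟨fun δ => if h : ∃ z : Z, (f z).down.1 = δ then y h.choose else y ⟨z0, hz0⟩, ?_⟩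
  ext z
  constructor
  · rintro ⟨δ, _, rfl⟩
    dsimp only
    split_ifs with h
    · rw [hy]; exact h.choose.2
    · rw [hy]; exact hz0
  · intro hz
    refine ⟨(f ⟨z, hz⟩).down.1, (f ⟨z, hz⟩).down.2, ?_⟩
    have h : ∃ z' : Z, (f z').down.1 = (f ⟨z, hz⟩).down.1 := ⟨⟨z, hz⟩, rfl⟩
    dsimp only
    rw [dif_pos h, hy]
    have h2 := h.choose_spec
    have h3 : f h.choose = f ⟨z, hz⟩ := ULift.ext _ _ (Subtype.ext h2)
    have h4 := f.injective h3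
    rw [h4]

/-- an enumeration of `Z` of length `γ`, if possible. -/
noncomputable def en [Nonempty (Shrink.{u} V)] (γ : κ.ord.ToType) (Z : Set ZFSet.{u}) :
    κ.ord.ToType → Shrink.{u} V := by
  classical
  exact if h : ∃ q : κ.ord.ToType → Shrink.{u} V, {z | ∃ δ < γ, val V (q δ) = z} = Z then h.choose
    else fun _ => Classical.arbitrary _

lemma en_spec [Nonempty (Shrink.{u} V)] (γ : κ.ord.ToType) (Z : Set ZFSet.{u})
    (hZV : ∀ z ∈ Z, z ∈ V) (hne : Z.Nonempty)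
    (hcard : #Z ≤ Cardinal.lift.{u + 1} #(Set.Iio γ)) :
    {z | ∃ δ < γ, val V (en V γ Z δ) = z} = Z := by
  have h := exists_enum V γ Z hZV hne hcard
  unfold en
  rw [dif_pos h]
  exact h.choose_spec

end enum

/-- the closure operations -/
noncomputable def W (θ : Cardinal.{u}) (o : Ordinal.{u}) (Z : Set ZFSet.{u})
    {ι : Type u} (B : ι → ZFSet.{u}) : Set ZFSet.{u} :=
  (Z ∪ ((constO o '' Z) ∪ (((fun X => o.toZFSet \ X) '' Z) ∪ ((Set.image2 (fun X Y => X ∩ Y) Z Z) ∪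
    (((fun F => ZFSet.sep (fun β => ∀ α ∈ β, ∀ A, ZFSet.pair α A ∈ F → β ∈ A) o.toZFSet) '' Z) ∪
    Set.range B))))) ∩ H θ

lemma card_W (θ : Cardinal.{u}) (o : Ordinal.{u}) (Z : Set ZFSet.{u})
    {ι : Type u} (B : ι → ZFSet.{u}) {μ : Cardinal.{u + 1}} (hμ : ℵ₀ ≤ μ) (hZ : #Z ≤ μ)
    (hι : Cardinal.lift.{u + 1} #ι ≤ μ) : #(W θ o Z B) ≤ μ := by
  unfold W
  refine (Cardinal.mk_le_mk_of_subset Set.inter_subset_left).trans ?_
  have hun : ∀ S T : Set ZFSet.{u}, #S ≤ μ → #T ≤ μ → #(S ∪ T : Set ZFSet.{u}) ≤ μ := by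
    intro S T hS hT
    exact (Cardinal.mk_union_le S T).trans (Cardinal.add_le_of_le hμ hS hT)
  refine hun _ _ hZ (hun _ _ (mk_image_le.trans hZ) (hun _ _ (mk_image_le.trans hZ)
    (hun _ _ ?_ (hun _ _ (mk_image_le.trans hZ) ?_))))
  · refine (Cardinal.mk_image2_le).trans ?_
    exact (mul_le_mul' hZ hZ).trans (Cardinal.mul_eq_self hμ).le
  · have := Cardinal.mk_range_le_lift (f := B)
    rw [Cardinal.lift_id'.{u, u + 1}] at this
    exact this.trans hι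

lemma hull_mono {N : Set ZFSet.{u}} [Nonempty N] {Z Z' : Set ZFSet.{u}} (h : Z ⊆ Z') :
    hull N Z ⊆ hull N Z' := by
  rintro _ ⟨x, hx, rfl⟩
  exact ⟨x, FirstOrder.Language.Substructure.closure_mono (Set.preimage_mono h) hx, rfl⟩

end Q210.RC
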