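import Pool.Agent.Q210.RC.Def

open Cardinal Ordinal Set FirstOrder

universe u w

namespace Q210.RC

variable {θ : Cardinal.{u}}

lemma Def.ofFormula {α β : Type w} (φ : LSet.Formula β) (g : β → α) :
    Def (fun (_ : Set ZFSet.{u}) v => φ.Realize (v ∘ g)) :=
  ⟨φ.relabel g, fun S v => Language.Formula.realize_relabel⟩

lemma updA {γ S : Type*} [DecidableEq (γ ⊕ ℕ)] (v : γ ⊕ ℕ → S) (x y : S) :
    (Function.update (Function.update v (Sum.inr 1) x) (Sum.inr 2) y ∘
      Sum.elim Sum.inl fun _ : Fin 1 => Sum.inr 2) = Sum.elim (fun c => v (Sum.inl c))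
        (fun _ => y) := by
  funext i
  rcases i with i | i
  · change Function.update (Function.update v (Sum.inr 1) x) (Sum.inr 2) y (Sum.inl i) = v (Sum.inl i)
    rw [Function.update_of_ne (by simp), Function.update_of_ne (by simp)]
  · change Function.update (Function.update v (Sum.inr 1) x) (Sum.inr 2) y (Sum.inr 2) = y
    rw [Function.update_self]

lemma updB {γ S : Type*} [DecidableEq (γ ⊕ ℕ)] (v : γ ⊕ ℕ → S) (x y : S) :
    (Function.update (Function.update v (Sum.inr 1) x) (Sum.inr 2) y ∘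
      Sum.elim Sum.inl fun i : Fin 2 => if i = 0 then Sum.inr 1 else Sum.inr 2) =
      Sum.elim (fun c => v (Sum.inl c)) ![x, y] := by
  funext i
  rcases i with i | i
  · change Function.update (Function.update v (Sum.inr 1) x) (Sum.inr 2) y (Sum.inl i) = v (Sum.inl i)
    rw [Function.update_of_ne (by simp), Function.update_of_ne (by simp)]
  · fin_cases i
    · change Function.update (Function.update v (Sum.inr 1) x) (Sum.inr 2) y (Sum.inr 1) = x
      rw [Function.update_of_ne (by simp), Function.update_self]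
    · change Function.update (Function.update v (Sum.inr 1) x) (Sum.inr 2) y (Sum.inr 2) = y
      rw [Function.update_self]

lemma updC {γ S : Type*} [DecidableEq (γ ⊕ ℕ)] (v : γ ⊕ ℕ → S) (b x y : S) :
    (Function.update (Function.update (Function.update v (Sum.inr 3) b) (Sum.inr 1) x)
      (Sum.inr 2) y ∘
      Sum.elim Sum.inl fun i : Fin 2 => if i = 0 then Sum.inr 1 else Sum.inr 2) =
      Sum.elim (fun c => v (Sum.inl c)) ![x, y] := by
  rw [updB]
  congr 1
  funext c
  rw [Function.update_of_ne (by simp)]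

lemma sUnion_mem_H {a : ZFSet.{u}} (ha : a ∈ H θ) : ZFSet.sUnion a ∈ H θ := by
  obtain ⟨t, ht, hat, hc⟩ := ha
  refine ⟨t, ht, ?_, hc⟩
  intro x hx
  obtain ⟨y, hy, hxy⟩ := ZFSet.mem_sUnion.1 hx
  exact ht y (hat hy) hxy

lemma card_lt_of_mem_H {a : ZFSet.{u}} (ha : a ∈ H θ) : a.card < θ := by
  obtain ⟨t, ht, hat, hc⟩ := ha
  exact lt_of_le_of_lt (ZFSet.card_mono hat) hc

/-- images of elements of `H(θ)` -/
lemma exists_image_H (hθ : θ.IsRegular) {a : ZFSet.{u}} (ha : a ∈ H θ)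
    (f : ∀ x, x ∈ a → ZFSet.{u}) (hf : ∀ x hx, f x hx ∈ H θ) :
    ∃ b ∈ H θ, ∀ y, y ∈ b ↔ ∃ x hx, y = f x hx := by
  refine ⟨ZFSet.range (fun i : Shrink.{u} a =>
    f ((equivShrink a).symm i).1 ((equivShrink a).symm i).2), ?_, ?_⟩
  · refine range_mem_H hθ ?_ _ (fun i => hf _ _)
    exact card_lt_of_mem_H ha
  · intro y
    rw [ZFSet.mem_range]
    constructor
    · rintro ⟨i, rfl⟩
      exact ⟨_, _, rfl⟩
    · rintro ⟨x, hx, rfl⟩
      refine ⟨equivShrink a ⟨x, hx⟩, ?_⟩
      simp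

lemma zfcMinus_of_elemSub (hθ : θ.IsRegular) (hθ0 : ℵ₀ < θ) {M : Set ZFSet.{u}}
    (hM : ElemSub M (H θ)) : ZFCMinus M := by
  classical
  obtain ⟨e, he⟩ := hM
  refine ⟨?_, ?_, ?_, ?_, ?_, ?_, ?_, ?_⟩
  · -- extensionality
    intro a b
    have t := ((Def.all (2 : ℕ) ((Def.mem 2 0).iff (Def.mem 2 1))).imp
      (Def.eq 0 1)).transfer e (fun i => if i = 0 then a else b)
    simp only [Function.update_self, Function.comp_apply, ne_eq, OfNat.zero_ne_ofNat,
      not_false_eq_true, Function.update_of_ne, OfNat.one_ne_ofNat, ↓reduceIte,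
      one_ne_zero] at t
    refine t.1 ?_
    intro h
    apply Subtype.ext
    ext z
    constructor
    · intro hz
      exact (h ⟨z, H_trans (e a).2 hz⟩).1 hz
    · intro hz
      exact (h ⟨z, H_trans (e b).2 hz⟩).2 hz
  · -- foundation
    intro a
    have t := ((Def.ex (1 : ℕ) (Def.mem 1 0)).imp (Def.ex 1 ((Def.mem 1 0).and
      (Def.all 2 ((Def.mem 2 1).imp (Def.mem 2 0).not))))).transfer e (fun _ => a)
    simp only [Function.update_self, Function.comp_apply, ne_eq, OfNat.zero_ne_ofNat,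
      not_false_eq_true, Function.update_of_ne, OfNat.one_ne_ofNat,
      zero_ne_one] at t
    refine t.1 ?_
    rintro ⟨x, hx⟩
    obtain ⟨m, hm, hmin⟩ := ZFSet.mem_wf.has_min ({y | y ∈ (e a).1} : Set ZFSet.{u}) ⟨x.1, hx⟩
    exact ⟨⟨m, H_trans (e a).2 hm⟩, hm, fun y hy hya => hmin y.1 hya hy⟩
  · -- pairing
    intro a b
    have t := (Def.ex (2 : ℕ) (Def.all 3 ((Def.mem 3 2).iff
      ((Def.eq 3 0).or (Def.eq 3 1))))).transfer e (fun i => if i = 0 then a else b)
    simp only [Function.update_self, Function.comp_apply, ne_eq, OfNat.zero_ne_ofNat,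
      not_false_eq_true, Function.update_of_ne, OfNat.one_ne_ofNat, ↓reduceIte,
      one_ne_zero, Nat.reduceEqDiff] at t
    refine t.1 ?_
    refine ⟨⟨{(e a).1, (e b).1}, pairset_mem_H hθ (e a).2 (e b).2⟩, fun x => ?_⟩
    rw [ZFSet.mem_pair, Subtype.ext_iff, Subtype.ext_iff]
  · -- union
    intro a
    have t := (Def.ex (1 : ℕ) (Def.all 2 ((Def.mem 2 1).iff
      (Def.ex 3 ((Def.mem 2 3).and (Def.mem 3 0)))))).transfer e (fun _ => a)
    simp only [Function.update_self, Function.comp_apply, ne_eq, OfNat.zero_ne_ofNat,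
      not_false_eq_true, Function.update_of_ne, OfNat.one_ne_ofNat, zero_ne_one,
      Nat.reduceEqDiff] at t
    refine t.1 ?_
    refine ⟨⟨ZFSet.sUnion (e a).1, sUnion_mem_H (e a).2⟩, fun x => ?_⟩
    rw [ZFSet.mem_sUnion]
    constructor
    · rintro ⟨y, hy, hxy⟩
      exact ⟨⟨y, H_trans (e a).2 hy⟩, hxy, hy⟩
    · rintro ⟨y, hxy, hy⟩
      exact ⟨y.1, hy, hxy⟩
  · -- infinity
    have hne : Nonempty M := by
      have t := (Def.ex (0 : ℕ) (Def.eq 0 0)).transfer.{u, 0} e
      by_contra hcon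
      have t0 := e.map_sentence (Language.BoundedFormula.ex
        (Language.Term.bdEqual (Language.Term.var (Sum.inr 0)) (Language.Term.var (Sum.inr 0))))
      have t1 : H θ ⊨ (Language.BoundedFormula.ex
        (Language.Term.bdEqual (Language.Term.var (Sum.inr 0)) (Language.Term.var (Sum.inr 0))) :
        LSet.Sentence) := by
        unfold Language.Sentence.Realize Language.Formula.Realize
        rw [Language.BoundedFormula.realize_ex]
        refine ⟨⟨∅, ∅, ZFSet.isTransitive_empty, fun _ h => h, ?_⟩, ?_⟩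
        · rw [ZFSet.card_empty]
          exact (zero_lt_iff.2 aleph0_ne_zero).trans hθ0
        · rw [Language.BoundedFormula.realize_bdEqual]
      have t2 := t0.2 t1
      unfold Language.Sentence.Realize Language.Formula.Realize at t2
      rw [Language.BoundedFormula.realize_ex] at t2
      obtain ⟨x, _⟩ := t2
      exact hcon ⟨x⟩
    obtain ⟨a⟩ := hne
    have t := (Def.ex (1 : ℕ) ((Def.ex 2 ((Def.mem 2 1).and (Def.all 3 (Def.mem 3 2).not))).and
      (Def.all 2 ((Def.mem 2 1).imp (Def.ex 3 ((Def.mem 3 1).and (Def.all 4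
        ((Def.mem 4 3).iff ((Def.mem 4 2).or (Def.eq 4 2)))))))))).transfer e (fun _ => a)
    simp only [Function.update_self, ne_eq, 
      not_false_eq_true, Function.update_of_ne,
      Nat.reduceEqDiff, OfNat.one_ne_ofNat] at t
    refine t.1 ?_
    have hω : (ω : Ordinal.{u}).toZFSet ∈ H θ := ord_mem_H (by rw [card_omega0]; exact hθ0)
    refine ⟨⟨_, hω⟩, ?_, ?_⟩
    · refine ⟨⟨(0 : Ordinal.{u}).toZFSet, ord_mem_H (by
        rw [card_zero]; exact (zero_lt_iff.2 aleph0_ne_zero).trans hθ0)⟩, ?_, ?_⟩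
      · exact toZFSet_mem_toZFSet_iff.2 omega0_pos
      · intro x hx
        simp at hx
    · rintro ⟨x, hxH⟩ hx
      obtain ⟨n, hn, rfl⟩ := mem_toZFSet_iff.1 hx
      have hn1 : Order.succ n < ω := Ordinal.isSuccLimit_omega0.succ_lt hn
      have hmem : (Order.succ n).toZFSet ∈ (ω : Ordinal.{u}).toZFSet :=
        toZFSet_mem_toZFSet_iff.2 hn1
      refine ⟨⟨(Order.succ n).toZFSet, H_trans hω hmem⟩, hmem, ?_⟩
      intro z
      have hs : (Order.succ n).toZFSet = insert n.toZFSet n.toZFSet := by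
        rw [← Ordinal.toZFSet_add_one]
        rfl
      change z.1 ∈ (Order.succ n).toZFSet ↔ _
      rw [hs, ZFSet.mem_insert_iff, Subtype.ext_iff, or_comm]
  · -- separation
    intro a D hD
    obtain ⟨φ, hφ⟩ := hD
    let φ' : LSet.Formula (↥(Set.univ : Set M) ⊕ Fin 1) :=
      Language.BoundedFormula.constantsVarsEquiv φ
    have hφ' : ∀ x : M, φ'.Realize (Sum.elim (fun c => c.1) (fun _ => x)) ↔ x ∈ D := by
      intro x
      have h1 : (fun _ => x : Fin 1 → M) ∈ {x : Fin 1 → M | x 0 ∈ D} ↔ x ∈ D := Iff.rfl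
      rw [← h1, hφ]
      have h2 := Language.BoundedFormula.realize_constantsVarsEquiv (φ := φ)
        (v := (fun _ => x : Fin 1 → M)) (xs := default)
      exact h2
    have t := (Def.ex (Sum.inr 1 : ↥(Set.univ : Set M) ⊕ ℕ) (Def.all (Sum.inr 2)
      ((Def.mem (Sum.inr 2) (Sum.inr 1)).iff ((Def.mem (Sum.inr 2) (Sum.inr 0)).and
        (Def.ofFormula φ' (Sum.elim Sum.inl (fun _ => Sum.inr 2))))))).transfer e
        (Sum.elim (fun c => c.1) (fun _ => a))
    simp only [Function.update_self, ne_eq, Sum.inr.injEq, Sum.elim_inr, Function.comp_apply,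
      not_false_eq_true, Function.update_of_ne, OfNat.zero_ne_ofNat, zero_ne_one,
      OfNat.one_ne_ofNat] at t
    simp only [updA, Sum.elim_inl, Function.comp_apply] at t
    have h1 : ∃ x : H θ, ∀ x_1 : H θ, x_1.1 ∈ x.1 ↔ x_1.1 ∈ (e a).1 ∧
        φ'.Realize (Sum.elim (fun c : ↥(Set.univ : Set M) => e c.1) (fun _ => x_1)) := by
      let P : H θ → Prop := fun x_1 =>
        φ'.Realize (Sum.elim (fun c : ↥(Set.univ : Set M) => e c.1) (fun _ => x_1))
      refine ⟨⟨ZFSet.sep (fun z => ∃ hz : z ∈ H θ, P ⟨z, hz⟩) (e a).1, H_subset (e a).2 ?_⟩, ?_⟩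
      · intro z hz
        exact (ZFSet.mem_sep.1 hz).1
      · intro z
        rw [ZFSet.mem_sep]
        exact and_congr_right fun _ => ⟨fun ⟨_, h⟩ => h, fun h => ⟨z.2, h⟩⟩
    obtain ⟨b, hb⟩ := t.1 h1
    refine ⟨b, fun x => ?_⟩
    rw [hb x, ← hφ' x]
  · -- collection
    intro a R hR hall
    obtain ⟨φ, hφ⟩ := hR
    let φ' : LSet.Formula (↥(Set.univ : Set M) ⊕ Fin 2) :=
      Language.BoundedFormula.constantsVarsEquiv φ
    have hφ' : ∀ x y : M, φ'.Realize (Sum.elim (fun c => c.1) ![x, y]) ↔ R x y := by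
      intro x y
      have h1 : (![x, y] : Fin 2 → M) ∈ {x : Fin 2 → M | (x 0, x 1) ∈ {p : M × M | R p.1 p.2}} ↔
        R x y := Iff.rfl
      rw [← h1, hφ]
      have h2 := Language.BoundedFormula.realize_constantsVarsEquiv (φ := φ)
        (v := (![x, y] : Fin 2 → M)) (xs := default)
      exact h2
    have t := ((Def.all (Sum.inr 1 : ↥(Set.univ : Set M) ⊕ ℕ) ((Def.mem (Sum.inr 1) (Sum.inr 0)).imp
      (Def.ex (Sum.inr 2) (Def.ofFormula φ'
        (Sum.elim Sum.inl (fun i => if i = 0 then Sum.inr 1 else Sum.inr 2)))))).imp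
      (Def.ex (Sum.inr 3 : ↥(Set.univ : Set M) ⊕ ℕ) (Def.all (Sum.inr 1)
      ((Def.mem (Sum.inr 1) (Sum.inr 0)).imp (Def.ex (Sum.inr 2)
        ((Def.mem (Sum.inr 2) (Sum.inr 3)).and
        (Def.ofFormula φ' (Sum.elim Sum.inl
          (fun i => if i = 0 then Sum.inr 1 else Sum.inr 2))))))))).transfer e
        (Sum.elim (fun c => c.1) (fun _ => a))
    simp only [Function.update_self, ne_eq, Sum.inr.injEq, Sum.elim_inr, Function.comp_apply,
      not_false_eq_true, Function.update_of_ne, OfNat.zero_ne_ofNat, zero_ne_one,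
      Nat.reduceEqDiff, OfNat.ofNat_ne_one] at t
    simp only [updB, Sum.elim_inl, Function.comp_apply, Function.update_of_ne, ne_eq,
      reduceCtorEq, not_false_eq_true] at t
    simp only [hφ'] at t
    refine t.1 ?_ hall
    intro h
    choose! f hf using h
    obtain ⟨b, hbH, hb⟩ := exists_image_H hθ (e a).2 (fun x hx => (f ⟨x, H_trans (e a).2 hx⟩).1)
      (fun x hx => (f _).2)
    refine ⟨⟨b, hbH⟩, fun x hx => ⟨f x, ?_, hf x hx⟩⟩
    exact (hb _).2 ⟨x.1, hx, rfl⟩
  · -- choice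
    intro a
    have t := ((Def.all (1 : ℕ) ((Def.mem 1 0).imp (Def.ex 2 (Def.mem 2 1)))).imp
      ((Def.all 1 (Def.all 2 ((Def.mem 1 0).imp ((Def.mem 2 0).imp
        ((Def.ex 3 ((Def.mem 3 1).and (Def.mem 3 2))).imp (Def.eq 1 2)))))).imp
      (Def.ex 4 (Def.all 1 ((Def.mem 1 0).imp (Def.ex 2 (((Def.mem 2 4).and (Def.mem 2 1)).and
        (Def.all 3 (((Def.mem 3 4).and (Def.mem 3 1)).imp (Def.eq 3 2)))))))))).transfer e
        (fun _ => a)
    simp only [Function.update_self, Function.comp_apply, ne_eq, OfNat.zero_ne_ofNat,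
      not_false_eq_true, Function.update_of_ne, OfNat.one_ne_ofNat, zero_ne_one,
      Nat.reduceEqDiff, OfNat.ofNat_ne_one] at t
    intro h1 h2
    have t' := t.1 ?_ h1 h2
    · obtain ⟨c, hc⟩ := t'
      refine ⟨c, fun x hx => ?_⟩
      obtain ⟨z, hz, hz2⟩ := hc x hx
      exact ⟨z, hz, hz2⟩
    · intro h1 h2
      choose! f hf using h1
      obtain ⟨b, hbH, hb⟩ := exists_image_H hθ (e a).2
        (fun x hx => (f ⟨x, H_trans (e a).2 hx⟩).1) (fun x hx => (f _).2)
      refine ⟨⟨b, hbH⟩, fun x hx => ⟨f x, ⟨(hb _).2 ⟨x.1, hx, rfl⟩, hf x hx⟩, ?_⟩⟩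
      rintro z ⟨hz1, hz2⟩
      obtain ⟨x', hx', hzx'⟩ := (hb _).1 hz1
      have hx'' : (⟨x', H_trans (e a).2 hx'⟩ : H θ) = x := by
        apply h2 _ _ hx' hx
        refine ⟨z, ?_, hz2⟩
        rw [hzx']
        exact hf ⟨x', H_trans (e a).2 hx'⟩ hx'
      apply Subtype.ext
      rw [hzx', hx'']

end Q210.RC
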